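import Pool.Agent.Lib.CLF.B_TRD

/-! Ultrapowers, products of subspaces, transcendence degree. -/

open Module Filter

noncomputable section

namespace Pool.Agent.Lib.LI11

/-- An algebraically closed extension of an ultrapower. -/
theorem ult (K ι : Type) [Field K] (U : Ultrafilter ι) :
    ∃ (L : Type) (_ : Field L) (_ : Algebra K L) (_ : IsAlgClosed L) (π : (ι → K) →ₐ[K] L),
      ∀ f, π f = 0 ↔ ∀ᶠ i in U, f i = 0 := by
  let I : Ideal (ι → K) :=
    { carrier := {f | ∀ᶠ i in U, f i = 0}
      add_mem' := fun {a b} ha hb => (ha.and hb).mono fun i h => by simp [h.1, h.2]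
      zero_mem' := Eventually.of_forall fun _ => rfl
      smul_mem' := fun c f h => h.mono fun i h => by simp [h] }
  have hI : I.IsMaximal := by
    refine Ideal.isMaximal_iff.2 ⟨fun h => ?_, fun J x hJ hx hxJ => ?_⟩
    · obtain ⟨i, hi⟩ := Eventually.exists (f := (U : Filter ι)) h
      exact one_ne_zero hi
    · have h1 : (1 - x⁻¹ * x) ∈ I := (Ultrafilter.eventually_not.2 hx).mono fun i h => by
        simp [inv_mul_cancel₀ h]
      simpa using J.add_mem (hJ h1) (J.mul_mem_left x⁻¹ hxJ)
  let := Ideal.Quotient.field I
  refine ⟨AlgebraicClosure ((ι → K) ⧸ I), inferInstance, inferInstance, inferInstance,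
    (IsScalarTower.toAlgHom K _ _).comp (Ideal.Quotient.mkₐ K I), fun f => ?_⟩
  rw [AlgHom.comp_apply, map_eq_zero, Ideal.Quotient.mkₐ_eq_mk, Ideal.Quotient.eq_zero_iff_mem]
  rfl

variable {K L : Type} [Field K] [Field L] [Algebra K L]

theorem fin_mul (V W : Submodule K L) [a : FiniteDimensional K V] [b : FiniteDimensional K W] :
    FiniteDimensional K (V * W : Submodule K L) :=
  Module.Finite.iff_fg.2 ((Module.Finite.iff_fg.1 a).mul (Module.Finite.iff_fg.1 b))

theorem rk_mul {a : L} (ha : a ≠ 0) (V : Submodule K L) :
    finrank K (Submodule.span K {a} * V : Submodule K L) = finrank K V := by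
  have : Submodule.span K {a} * V = V.map (LinearMap.mulLeft K a) := by
    rw [Submodule.span_singleton_mul]
    rfl
  rw [this]
  exact (Submodule.equivMapOfInjective _ (mul_right_injective₀ ha) V).finrank_eq.symm

/-- The dimension of a product of subspaces. -/
theorem hopf [IsAlgClosed K] (r : ℕ) : ∀ (V W : Submodule K L) [FiniteDimensional K V]
    [FiniteDimensional K W], finrank K W = r → V ≠ ⊥ → W ≠ ⊥ →
    finrank K V + r ≤ finrank K (V * W : Submodule K L) + 1 := by
  induction r using Nat.strong_induction_on with
  | _ r ih =>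
  intro V W _ _ hr hV hW
  obtain ⟨w, hw, w0⟩ := (Submodule.ne_bot_iff W).1 hW
  have := fin_mul V W
  by_cases h : ∃ v ∈ V, v ≠ 0 ∧ ¬ W ≤ Submodule.span K {w / v} * V
  · obtain ⟨v, hv, v0, h⟩ := h
    have a0 := div_ne_zero w0 v0
    have := fin_mul (Submodule.span K {w / v}) V
    have := fin_mul (Submodule.span K {w / v}) (V * W)
    have e1 := rk_mul (K := K) a0 V
    have e2 := rk_mul (K := K) a0 (V * W)
    have hw' : w ∈ Submodule.span K {w / v} * V := by
      have := Submodule.mul_mem_mul (Submodule.mem_span_singleton_self (R := K) (w / v)) hv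
      rwa [div_mul_cancel₀ _ v0] at this
    rw [← mul_assoc] at e2
    generalize Submodule.span K {w / v} * V = A at *
    have := fin_mul A W
    have e3 := Submodule.finrank_sup_add_finrank_inf_eq A W
    have e4 := ih _ (hr ▸ Submodule.finrank_lt_finrank_of_lt (inf_lt_right.2 h)) (A ⊔ W) (A ⊓ W) rfl
      (fun e => hW (sup_eq_bot_iff.1 e).2) ((Submodule.ne_bot_iff _).2 ⟨w, ⟨hw', hw⟩, w0⟩)
    have e5 : finrank K ((A ⊔ W) * (A ⊓ W) : Submodule K L) ≤ finrank K (A * W : Submodule K L) := by
      refine Submodule.finrank_mono ?_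
      rw [Submodule.sup_mul]
      exact sup_le (mul_le_mul' le_rfl inf_le_right)
        ((mul_le_mul' le_rfl inf_le_left).trans (mul_comm _ _).le)
    omega
  push Not at h
  have h1 : W ≤ Submodule.span K {w} := fun z hz => by
    have h2 : ∀ v ∈ V, LinearMap.mulLeft K (z / w) v ∈ V := fun v hv => by
      by_cases v0 : v = 0
      · simp [v0]
      obtain ⟨u, hu, e⟩ := Submodule.mem_span_singleton_mul.1 (h v hv v0 hz)
      have : LinearMap.mulLeft K (z / w) v = u := by
        rw [LinearMap.mulLeft_apply, ← e]
        field_simp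
      rwa [this]
    have := Submodule.nontrivial_iff_ne_bot.2 hV
    obtain ⟨c, hc⟩ := Module.End.exists_eigenvalue ((LinearMap.mulLeft K (z / w)).restrict h2)
    obtain ⟨v, h3, h4⟩ := hc.exists_hasEigenvector
    have h5 : z / w * v = c • (v : L) := congrArg Subtype.val (Module.End.mem_eigenspace_iff.1 h3)
    rw [Algebra.smul_def] at h5
    refine Submodule.mem_span_singleton.2 ⟨c, ?_⟩
    rw [Algebra.smul_def, ← mul_right_cancel₀ (fun e => h4 (Subtype.ext e)) h5,
      div_mul_cancel₀ _ w0]
  have h2 := (Submodule.finrank_mono h1).trans_eq (finrank_span_singleton w0)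
  have h3 : finrank K (Submodule.span K {w} * V : Submodule K L) ≤
      finrank K (V * W : Submodule K L) := Submodule.finrank_mono
    ((mul_comm _ _).le.trans (mul_le_mul' le_rfl ((Submodule.span_singleton_le_iff_mem _ _).2 hw)))
  rw [rk_mul w0] at h3
  omega

theorem hopf_pow [IsAlgClosed K] (V : Submodule K L) [FiniteDimensional K V] {s : ℕ}
    (hs : s + 1 ≤ finrank K V) (d : ℕ) : FiniteDimensional K (V ^ d : Submodule K L) ∧
      s * d + 1 ≤ finrank K (V ^ d : Submodule K L) := by
  induction d with
  | zero =>
    rw [pow_zero, Submodule.one_eq_span]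
    exact ⟨inferInstance, by simp [finrank_span_singleton]⟩
  | succ d ih =>
    obtain ⟨_, ih⟩ := ih
    rw [pow_succ]
    refine ⟨fin_mul _ _, ?_⟩
    have := hopf _ (V ^ d) V rfl (fun e => by rw [e, finrank_bot] at ih; omega) fun e => by
      rw [e, finrank_bot] at hs; omega
    rw [mul_add]
    omega

/-- Independent linear conditions lower the transcendence degree, with free parameters. -/
theorem trd (L ι ι' κ : Type) [Field L] [CharZero L] [Fintype ι] [Fintype ι'] [Fintype κ]
    (T : Finset L) (g : ι → L) (z : ι' → L) (A : κ → ι → L)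
    (hg : AlgebraicIndependent ℚ (Sum.elim g z)) (hz : ∀ i, z i ∈ Subfield.closure (T : Set L))
    (hA : ∀ k i, A k i ∈ Subfield.closure (T : Set L)) (hl : LinearIndependent L A)
    (h0 : ∀ k, ∑ i, A k i * g i = 0) : Fintype.card κ + Fintype.card ι' ≤ T.card := by
  classical
  set K := Subfield.closure (T : Set L)
  let A' : κ → ι → K := fun k i => ⟨A k i, hA k i⟩
  have hl' : LinearIndependent K A' := by
    rw [Fintype.linearIndependent_iff] at hl ⊢
    intro c hc k
    refine Subtype.ext (hl (fun k => c k) (funext fun i => ?_) k)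
    have := congrArg Subtype.val (congrFun hc i)
    simpa [A'] using this
  let f := Fintype.linearCombination K g
  have h1 : Fintype.card κ ≤ finrank K (LinearMap.ker f) := by
    refine LinearIndependent.fintype_card_le_finrank (b := fun k => ⟨A' k, ?_⟩)
      (LinearIndependent.of_comp (LinearMap.ker f).subtype hl')
    rw [LinearMap.mem_ker, Fintype.linearCombination_apply]
    exact h0 k
  have h2 := f.finrank_range_add_finrank_ker
  rw [finrank_fintype_fun_eq_card, Fintype.range_linearCombination] at h2
  have : Module.Finite K (Submodule.span K (Set.range g)) :=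
    Module.Finite.span_of_finite K (Set.finite_range g)
  obtain ⟨t, -, t2, t3, -⟩ := Submodule.exists_finset_span_eq_linearIndepOn K (Set.range g)
  have h3 := CLF.TRD.card_le (T ∪ t) hg fun i => by
    rcases i with i | i
    swap
    · exact Subfield.closure_mono (by simp) (hz i)
    have : g i ∈ Submodule.span K (t : Set L) := t3 ▸ Submodule.subset_span ⟨i, rfl⟩
    rw [Sum.elim_inl]
    generalize g i = x at this
    induction this using Submodule.span_induction with
    | mem x hx => exact Subfield.subset_closure (by simp [Finset.mem_coe.1 hx])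
    | zero => exact zero_mem _
    | add x y _ _ a b => exact add_mem a b
    | smul c x _ a => exact mul_mem (Subfield.closure_mono (by simp) c.2) a
  have := Finset.card_union_le T t
  rw [Fintype.card_sum] at h3
  omega

end Pool.Agent.Lib.LI11
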