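import Pool.Agent.Lib.LI11.A

/-! Cheap points in general position in an uncountable set of points. -/

open Module Filter

noncomputable section

namespace Pool.Agent.Lib.LI11

variable {K : Type} [Field K] {J : Type} {n : ℕ}

/-- Distinct points of projective space. -/
def PD' (X : J → Fin (n + 1) → K) : Prop :=
  (∀ j, X j ≠ 0) ∧ ∀ j j', (∀ i i', X j i * X j' i' = X j i' * X j' i) → j = j'

theorem ex_filter [Uncountable J] {X : J → Fin (n + 1) → K} (h : PD' X) :
    ∃ (a b : Fin (n + 1)) (U : Ultrafilter J), (∀ᶠ j in U, X j a ≠ 0) ∧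
      ∀ C : Set K, C.Countable → ∀ᶠ j in U, (X j a)⁻¹ * X j b ∉ C := by
  obtain ⟨a, b, h1⟩ : ∃ a b, ∀ C : Set K, C.Countable →
      ∃ j, X j a ≠ 0 ∧ (X j a)⁻¹ * X j b ∉ C := by
    by_contra! h1
    choose C h2 h3 using h1
    choose a ha using fun j => Function.ne_iff.1 (h.1 j)
    have h4 := (Set.countable_iUnion fun a => Set.countable_iUnion fun b => h2 a b).to_subtype
    refine not_countable (Function.Injective.countable (f := fun j i => (⟨(X j (a j))⁻¹ * X j i,
      Set.mem_iUnion₂.2 ⟨_, _, h3 _ i j (ha j)⟩⟩ : ↥(⋃ a, ⋃ b, C a b))) fun j j' e =>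
        h.2 j j' fun i i' => ?_)
    have e1 := congrArg Subtype.val (congrFun e i)
    have e2 := congrArg Subtype.val (congrFun e i')
    simp only at e1 e2
    refine mul_left_cancel₀ (mul_ne_zero (inv_ne_zero (ha j)) (inv_ne_zero (ha j'))) ?_
    linear_combination ((X j' (a j'))⁻¹ * X j' i') * e1 - ((X j' (a j'))⁻¹ * X j' i) * e2
  have : NeBot (comap (fun j => (X j a)⁻¹ * X j b) cocountable ⊓ 𝓟 {j | X j a ≠ 0}) :=
    inf_principal_neBot_iff.2 fun U ⟨t, ht, hU⟩ => by
      obtain ⟨j, h2, h3⟩ := h1 _ (mem_cocountable.1 ht)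
      exact ⟨j, hU (not_not.1 h3), h2⟩
  refine ⟨a, b, Ultrafilter.of _, (Ultrafilter.of_le _).trans inf_le_right (mem_principal_self _),
    fun C hC => (Ultrafilter.of_le _).trans inf_le_left (preimage_mem_comap (t := Cᶜ)
      (mem_cocountable.2 (by rwa [compl_compl])))⟩

theorem ctble [CharZero K] {ι : Type} [Finite ι] (g : ι → K) :
    {z : K | IsAlgebraic (Algebra.adjoin ℚ (Set.range g)) z}.Countable := by
  have : Countable (MvPolynomial ι ℚ) := AddMonoidAlgebra.coeffEquiv.countable_iff.2 inferInstance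
  have : Countable (Algebra.adjoin ℚ (Set.range g)) := by
    rw [Algebra.adjoin_range_eq_range_aeval]
    exact (Set.countable_range _).to_subtype
  exact Algebraic.countable _ _

theorem ind_cons [CharZero K] {ι : Type} {r : ℕ} {g : ι → K} {z : Fin r → K} {w : K}
    (h : AlgebraicIndependent ℚ (Sum.elim g z))
    (hw : ¬ IsAlgebraic (Algebra.adjoin ℚ (Set.range (Sum.elim g z))) w) :
    AlgebraicIndependent ℚ (Sum.elim g (Fin.cons w z : Fin (r + 1) → K)) := by
  have := ((h.option_iff_transcendental w).2 hw).comp (Sum.elim (fun i => some (.inl i))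
    (Fin.cons none fun k => some (.inr k) : Fin (r + 1) → Option (ι ⊕ Fin r))) (by
      rintro (i | i) (j | j)
      · simp
      · refine Fin.cases ?_ (fun j => ?_) j <;> simp
      · refine Fin.cases ?_ (fun i => ?_) i <;> simp
      · refine Fin.cases ?_ (fun i => ?_) i <;> refine Fin.cases ?_ (fun j => ?_) j <;>
          simp [(Fin.succ_ne_zero _).symm])
  refine (congrArg (fun v => AlgebraicIndependent ℚ v) (funext ?_)).mp this
  rintro (i | i)
  · rfl
  · refine Fin.cases ?_ (fun i => ?_) i <;> rfl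

theorem side [IsAlgClosed K] [CharZero K] [Uncountable J] {X : J → Fin (n + 1) → K} (h : PD' X)
    (d : ℕ) : ∃ s a : ℕ, s + 1 + a = n ∧ ∀ (ι : Type) [Finite ι] (g : ι → K),
      AlgebraicIndependent ℚ g → ∀ P ≤ (s + 1) * d + 1, ∃ (j : Fin P → J) (c z : Fin P → K)
        (T : Finset K), AlgebraicIndependent ℚ (Sum.elim g z) ∧
        T.card ≤ (s + 2) * a + (s + 1) * P ∧ (∀ k, z k ∈ Subfield.closure (T : Set K)) ∧
        (∀ k i, (c k • X (j k)) i ∈ Subfield.closure (T : Set K)) ∧
        LinearIndependent K fun k (w : Fin d → Fin (n + 1)) => ∏ t, (c k • X (j k)) (w t) := by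
  classical
  obtain ⟨a, b, U, ha, hb⟩ := ex_filter h
  obtain ⟨L, _, _, -, π, hπ⟩ := ult K J U
  let Y : J → Fin (n + 1) → K := fun j => (X j a)⁻¹ • X j
  let x : Fin (n + 1) → L := fun i => π fun j => Y j i
  have h1 : ∀ᶠ j in U, Y j a = 1 := ha.mono fun j hj => inv_mul_cancel₀ hj
  have h2 : x a = 1 := by
    rw [← sub_eq_zero, ← map_one π, ← map_sub, hπ]
    exact h1.mono fun j hj => sub_eq_zero.2 hj
  have h3 : ∀ c : K, c • x a ≠ x b := fun c e => by
    rw [← sub_eq_zero, ← map_smul, ← map_sub, hπ] at e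
    obtain ⟨j, e1, e2, e3⟩ := (e.and (h1.and (hb {c} (Set.countable_singleton c)))).exists
    simp only [Pi.sub_apply, Pi.smul_apply, e2, smul_eq_mul, mul_one, sub_eq_zero] at e1
    exact e3 e1.symm
  have hab : a ≠ b := fun e => h3 1 (by rw [one_smul, e])
  obtain ⟨B', -, b1, b2, b3⟩ := exists_linearIndepOn_extension
    ((linearIndepOn_pair_iff x hab (h2 ▸ one_ne_zero)).2 h3) (Set.subset_univ _)
  lift B' to Finset (Fin (n + 1)) using Set.toFinite _ with B
  have aB : a ∈ B := b1 (by simp)
  have bB : b ∈ B.erase a := Finset.mem_erase.2 ⟨hab.symm, b1 (by simp)⟩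
  have c1 := Finset.card_pos.2 ⟨b, bB⟩
  have c2 := Finset.card_erase_of_mem aB
  have c3 := Finset.card_add_card_compl B
  rw [Fintype.card_fin] at c3
  obtain ⟨s, hs⟩ : ∃ s, B.card = s + 2 := ⟨B.card - 2, by omega⟩
  choose M hM using fun i => (Submodule.mem_span_image_finset_iff_exists_fun' K).1
    (b2 ⟨i, Set.mem_univ i, rfl⟩)
  have h4 : ∀ᶠ j in U, ∀ i, Y j i = ∑ l ∈ B, M i l * Y j l := eventually_all.2 fun i => by
    have := hM i
    simp only [x, ← map_smul, ← map_sum] at this
    rw [← sub_eq_zero, ← map_sub, hπ] at this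
    exact this.mono fun j hj => Eq.symm (by
      simpa only [Pi.sub_apply, Finset.sum_apply, Pi.smul_apply, smul_eq_mul, sub_eq_zero]
        using hj)
  have : FiniteDimensional K (Submodule.span K (Set.range x)) :=
    Module.Finite.span_of_finite K (Set.finite_range x)
  obtain ⟨_, h5⟩ := hopf_pow (Submodule.span K (Set.range x)) (s := s + 1) (by
    have := finrank_span_eq_card b3
    rw [Fintype.card_of_finset' B fun _ => Iff.rfl, hs] at this
    exact this.ge.trans (Submodule.finrank_mono (Submodule.span_mono (by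
      rintro _ ⟨i, rfl⟩
      exact ⟨_, rfl⟩)))) d
  refine ⟨s, Bᶜ.card, by omega, fun ι _ g hg P hP => ?_⟩
  let u : J → (Fin d → Fin (n + 1)) → K := fun j w => ∏ t, Y j (w t)
  have key : ∀ r ≤ P, ∃ j : Fin r → J, (∀ k, Y (j k) a = 1 ∧
      ∀ i, Y (j k) i = ∑ l ∈ B, M i l * Y (j k) l) ∧
      AlgebraicIndependent ℚ (Sum.elim g fun k => Y (j k) b) ∧
      LinearIndependent K fun k => u (j k) := fun r => by
    induction r with
    | zero =>
      refine fun _ => ⟨Fin.elim0, fun k => k.elim0, ?_, linearIndependent_empty_type⟩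
      have := hg.comp (Sum.elim id Fin.elim0 : ι ⊕ Fin 0 → ι) (by
        rintro (i | i) (j | j)
        exacts [by simp, j.elim0, i.elim0, i.elim0])
      refine (congrArg (fun v => AlgebraicIndependent ℚ v) (funext ?_)).mp this
      rintro (i | i)
      exacts [rfl, i.elim0]
    | succ r ih =>
      intro hr
      obtain ⟨j, j1, j2, j3⟩ := ih (by omega)
      have h6 : ∀ᶠ j' in U, u j' ∉ Submodule.span K (Set.range fun k => u (j k)) := by
        refine Ultrafilter.eventually_not.2 fun h6 => ?_
        simp only [Submodule.mem_span_range_iff_exists_fun] at h6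
        obtain ⟨c, hc⟩ := h6.choice
        have h7 : Submodule.span K (Set.range x) ^ d ≤
            Submodule.span K (Set.range fun k => π fun j' => c j' k) := by
          rw [Submodule.span_pow, Submodule.span_le]
          intro v hv
          obtain ⟨f, f1, rfl⟩ := Set.mem_pow_iff_prod.1 hv
          choose w hw using f1
          refine (Submodule.mem_span_range_iff_exists_fun K).2 ⟨fun k => u (j k) w, ?_⟩
          simp only [← hw, x, ← map_smul, ← map_sum, ← map_prod]
          rw [← sub_eq_zero, ← map_sub, hπ]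
          exact hc.mono fun j' e => by
            have := congrFun e w
            simpa only [Pi.sub_apply, Finset.sum_apply, Pi.smul_apply, smul_eq_mul, sub_eq_zero,
              Finset.prod_apply, mul_comm] using this
        have : FiniteDimensional K (Submodule.span K (Set.range fun k => π fun j' => c j' k)) :=
          Module.Finite.span_of_finite K (Set.finite_range _)
        have := (Submodule.finrank_mono h7).trans (finrank_range_le_card _)
        rw [Fintype.card_fin] at this
        omega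
      obtain ⟨j', e1, e2, e3, e4⟩ := (h1.and (h4.and (h6.and
        (hb _ (ctble (Sum.elim g fun k => Y (j k) b)))))).exists
      refine ⟨Fin.cons j' j, Fin.cases ⟨e1, e2⟩ j1, (congrArg (fun z => AlgebraicIndependent ℚ
        (Sum.elim g z)) (funext ?_)).mp (ind_cons j2 e4),
          (congrArg (fun v => LinearIndependent K v) (funext ?_)).mp
          (linearIndependent_finCons.2 ⟨j3, e3⟩)⟩ <;> exact Fin.cases rfl fun _ => rfl
  obtain ⟨j, j1, j2, j3⟩ := key P le_rfl
  let T := (B ×ˢ Bᶜ).image (fun p => M p.2 p.1) ∪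
    (B.erase a ×ˢ Finset.univ).image fun p : _ × Fin P => Y (j p.2) p.1
  have h7 : ∀ k, ∀ l ∈ B, Y (j k) l ∈ Subfield.closure (T : Set K) := fun k l hl => by
    by_cases e : l = a
    · rw [e, (j1 k).1]
      exact one_mem _
    · exact Subfield.subset_closure (Finset.mem_union_right _ (Finset.mem_image.2
        ⟨(l, k), by simp [e, hl], rfl⟩))
  refine ⟨j, fun k => (X (j k) a)⁻¹, _, T, j2, ?_, fun k => h7 k b (Finset.mem_erase.1 bB).2,
    fun k i => ?_, j3⟩
  · refine (Finset.card_union_le _ _).trans (add_le_add (Finset.card_image_le.trans ?_)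
      (Finset.card_image_le.trans ?_)) <;> simp [hs, c2]
  · by_cases e : i ∈ B
    · exact h7 k i e
    · change Y (j k) i ∈ _
      rw [(j1 k).2]
      exact sum_mem fun l hl => mul_mem (Subfield.subset_closure (Finset.mem_union_left _
        (Finset.mem_image.2 ⟨(l, i), by simp [e, hl], rfl⟩))) (h7 k l hl)

end Pool.Agent.Lib.LI11
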