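import Pool.Agent.Lib.LI11.B
import Pool.Agent.Lib.CLF.Top

/-! No products of curves. -/

open MvPolynomial Module Filter Pool.Agent.Lib.MP_08f962_ag Pool.Agent.Lib.CLF

noncomputable section

namespace Pool.Agent.Lib.LI11

variable {n m d e : ℕ} {F : S n m}

/-- A form with independent coefficients. -/
def Gn (F : S n m) (d e : ℕ) : Prop := F ∈ Forms n m (d, e) ∧
  AlgebraicIndependent ℚ fun α : {α // Finsupp.weight (wt n m) α = (d, e)} => F.coeff α.1

theorem pt_map {R T : Type} [CommRing R] [Algebra ℂ R] [CommRing T] [Algebra ℂ T]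
    (φ : R →ₐ[ℂ] T) (x : Fin (n + 1) → R) (y : Fin (m + 1) → R) (G : S n m) :
    pt (fun i => φ (x i)) (fun i => φ (y i)) G = φ (pt x y G) := by
  have : pt (fun i => φ (x i)) (fun i => φ (y i)) = φ.comp (pt x y) := by
    ext (i | i) : 1 <;> simp [pt]
  exact AlgHom.congr_fun this G

theorem arith {s t a b : ℕ} (h1 : 2 ≤ s + a) (h2 : 2 ≤ t + b) :
    (s + 2) * a + (s + 1) * ((s + 1) * (t + b) + 1) + ((t + 2) * b + (t + 1) *
      ((t + 1) * (s + a) + 1)) < ((s + 1) * (t + b) + 1) * ((t + 1) * (s + a) + 1) +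
        (((s + 1) * (t + b) + 1) + ((t + 1) * (s + a) + 1)) := by
  have key : s * t + (s + 2) * a + (t + 2) * b <
      (s * (t + b) + b + 1) * (t * (s + a) + a + 1) := by
    rcases s with _ | s <;> rcases t with _ | t
    · obtain ⟨a, rfl⟩ := exists_add_of_le (show 2 ≤ a by omega)
      obtain ⟨b, rfl⟩ := exists_add_of_le (show 2 ≤ b by omega)
      nlinarith [Nat.zero_le (a * b)]
    · obtain ⟨a, rfl⟩ := exists_add_of_le (show 2 ≤ a by omega)
      nlinarith [Nat.zero_le (a * b), Nat.zero_le (t * a), Nat.zero_le (t * b),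
        Nat.zero_le (t * a * b)]
    · obtain ⟨b, rfl⟩ := exists_add_of_le (show 2 ≤ b by omega)
      nlinarith [Nat.zero_le (a * b), Nat.zero_le (s * a), Nat.zero_le (s * b),
        Nat.zero_le (s * a * b)]
    · have e1 := Nat.mul_le_mul_left (s + 1) h2
      have e2 := Nat.mul_le_mul_left (t + 1) h1
      have := Nat.mul_le_mul (Nat.add_le_add_right e1 (b + 1)) (Nat.add_le_add_right e2 (a + 1))
      nlinarith [Nat.zero_le (a * b), Nat.zero_le (s * a), Nat.zero_le (t * b), Nat.zero_le (s * t)]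
  nlinarith

theorem nogrid (hF : Gn F d e) (hn : 3 ≤ n) (hm : 3 ≤ m) (hd : m ≤ d + 1) (he : n ≤ e + 1)
    {K J : Type} [Field K] [Algebra ℂ K] [IsAlgClosed K] [Uncountable J]
    {x : J → Fin (n + 1) → K} {y : J → Fin (m + 1) → K} (hx : PD' x) (hy : PD' y) :
    ∃ k l, pt (x k) (y l) F ≠ 0 := by
  classical
  by_contra! h0
  have : CharZero K := charZero_of_injective_algebraMap (algebraMap ℂ K).injective
  have : Fintype {α // Finsupp.weight (wt n m) α = (d, e)} := (finite_wt (d, e)).fintype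
  obtain ⟨s, a, h1, h2⟩ := side hx d
  obtain ⟨t, b, h3, h4⟩ := side hy e
  obtain ⟨j, c, z, T, a1, a2, a3, a4, a5⟩ := h2 _ _
    (hF.2.map' (f := (algebraMap ℂ K).toRatAlgHom) (algebraMap ℂ K).injective)
    ((s + 1) * (t + b) + 1) (Nat.succ_le_succ (Nat.mul_le_mul_left _ (by omega)))
  obtain ⟨j', c', z', T', b1, b2, b3, b4, b5⟩ := h4 _ _ a1
    ((t + 1) * (s + a) + 1) (Nat.succ_le_succ (Nat.mul_le_mul_left _ (by omega)))
  have h5 : ∀ k l, pt (c k • x (j k)) (c' l • y (j' l)) F = 0 := fun k l => by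
    rw [NG.scale _ _ _ _ hF.1, h0, mul_zero]
  have key := trd K {α // Finsupp.weight (wt n m) α = (d, e)} _ (_ × _) (T ∪ T') _ (Sum.elim z z')
    (fun k α => ∏ i, Sum.elim (c k.1 • x (j k.1)) (c' k.2 • y (j' k.2)) i ^ α.1 i)
    ((congrArg (fun v => AlgebraicIndependent ℚ v) (funext (by rintro (i | i | i) <;> rfl))).mp
      (b1.comp _ (Equiv.sumAssoc _ _ _).symm.injective))
    (by
      rintro (i | i)
      · exact Subfield.closure_mono (by simp) (a3 i)
      · exact Subfield.closure_mono (by simp) (b3 i))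
    (fun k α => prod_mem fun i _ => pow_mem (by
      rcases i with i | i
      · exact Subfield.closure_mono (by simp) (a4 _ i)
      · exact Subfield.closure_mono (by simp) (b4 _ i)) _) ?_ fun k => ?_
  · have := arith (s := s) (t := t) (a := a) (b := b) (by omega) (by omega)
    have := Finset.card_union_le T T'
    simp only [Fintype.card_prod, Fintype.card_sum, Fintype.card_fin] at key
    omega
  · rw [Fintype.linearIndependent_iff] at a5 b5 ⊢
    intro γ hc k
    refine b5 (fun l => γ (k.1, l)) (funext fun w' => ?_) k.2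
    simp only [Finset.sum_apply, Pi.smul_apply, Pi.zero_apply]
    refine a5 (fun k => ∑ l, γ (k, l) • ∏ t, c' l • y (j' l) (w' t)) (funext fun w => ?_) k.1
    have hH : IsWeightedHomogeneous (wt n m) ((∏ t, X (.inl (w t))) * ∏ t, X (.inr (w' t)) :
        MvPolynomial _ K) (d, e) := by
      simpa using (IsWeightedHomogeneous.prod Finset.univ _ (fun _ => ((1, 0) : ℕ × ℕ)) fun t _ =>
        isWeightedHomogeneous_X K (wt n m) (.inl (w t))).mul (IsWeightedHomogeneous.prod Finset.univ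
          _ (fun _ => ((0, 1) : ℕ × ℕ)) fun t _ => isWeightedHomogeneous_X K (wt n m) (.inr (w' t)))
    have h6 : ∑ l, γ l * eval (Sum.elim (c l.1 • x (j l.1)) (c' l.2 • y (j' l.2)))
        ((∏ t, X (.inl (w t))) * ∏ t, X (.inr (w' t))) = 0 := by
      simp only [GRID.eval_eq_sum hH, Finset.mul_sum]
      rw [Finset.sum_comm]
      refine Finset.sum_eq_zero fun α _ => ?_
      have := congrFun hc α
      simp only [Finset.sum_apply, Pi.smul_apply, smul_eq_mul, Pi.zero_apply] at this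
      simp only [← mul_assoc, ← Finset.sum_mul, this, zero_mul]
    rw [Fintype.sum_prod_type] at h6
    simp only [map_mul, map_prod, eval_X, Sum.elim_inl, Sum.elim_inr] at h6
    simp only [Finset.sum_apply, Pi.smul_apply, smul_eq_mul, Pi.zero_apply, Finset.sum_mul] at h6 ⊢
    rw [← h6]
    exact Finset.sum_congr rfl fun _ _ => Finset.sum_congr rfl fun _ _ => by ring
  · have hH : IsWeightedHomogeneous (wt n m) (map (algebraMap ℂ K) F) (d, e) := fun α h =>
      hF.1 fun h' => h (by rw [coeff_map, h', map_zero])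
    have := GRID.eval_eq_sum hH (Sum.elim (c k.1 • x (j k.1)) (c' k.2 • y (j' k.2)))
    rw [eval_map, ← aeval_def] at this
    simp only [coeff_map] at this
    exact this.symm.trans (h5 k.1 k.2)

theorem pd_pd' {L ι : Type} [Field L] {x : ι → Fin (n + 1) → L} (h : PD x) : PD' x := by
  refine ⟨h.1, fun k l e => ?_⟩
  obtain ⟨i, hi⟩ := Function.ne_iff.1 (h.1 l)
  refine h.2 k l (x k i / x l i) (funext fun j => ?_)
  rw [Pi.zero_apply] at hi
  simp only [Pi.smul_apply, smul_eq_mul]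
  field_simp
  exact e j i

theorem pd_ult {L : Type} [Field L] [Algebra ℂ L] {π : (ℕ → ℂ) →ₐ[ℂ] L}
    (hπ : ∀ f, π f = 0 ↔ ∀ᶠ i in hyperfilter ℕ, f i = 0)
    {x : ∀ j : ℕ, (Fin j → Bool) → Fin (n + 1) → ℂ} (h : ∀ j, PD' (x j)) :
    PD' fun (A : ℕ → Bool) i => π fun j => x j (fun t => A t) i := by
  refine ⟨fun A e => ?_, fun A B e => funext fun t => ?_⟩
  · obtain ⟨j, hj⟩ := (eventually_all.2 fun i => (hπ _).1 (congrFun e i)).exists
    exact (h j).1 _ (funext hj)
  · simp only [← map_mul] at e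
    obtain ⟨j, h1, h2⟩ := ((eventually_all.2 fun i => eventually_all.2 fun i' => (hπ _).1
      ((map_sub π _ _).trans (sub_eq_zero.2 (e i i')))).and
        ((eventually_gt_atTop t).filter_mono Nat.hyperfilter_le_atTop)).exists
    exact congrFun ((h j).2 _ _ fun i i' => sub_eq_zero.1 (h1 i i')) ⟨t, h2⟩

theorem bdgrid (hF : Gn F d e) (hn : 3 ≤ n) (hm : 3 ≤ m) (hd : m ≤ d + 1) (he : n ≤ e + 1) :
    ∃ N, N ≠ 0 ∧ NG1 (F ^ N) (N * d) (N * e) := by
  by_contra! h
  have h1 : ∀ j : ℕ, ∃ (x : (Fin j → Bool) → Fin (n + 1) → ℂ) (y : (Fin j → Bool) → Fin (m + 1) → ℂ),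
      PD' x ∧ PD' y ∧ ∀ k l, pt (x k) (y l) F = 0 := fun j => by
    have := h (2 ^ j) (by positivity)
    simp only [NG1, not_forall, not_exists, not_not] at this
    obtain ⟨x, y, hx, hy, h0⟩ := this
    have h2 : ∀ u, 1 ≤ u → Nonempty ((Fin j → Bool) ↪ Fin (2 ^ j * u + 1)) := fun u hu =>
      Function.Embedding.nonempty_of_card_le (by
        simpa using (Nat.le_mul_of_pos_right _ hu).trans (Nat.le_succ _))
    obtain ⟨σ⟩ := h2 d (by omega)
    obtain ⟨τ⟩ := h2 e (by omega)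
    exact ⟨fun k => x (σ k), fun l => y (τ l),
      pd_pd' ⟨fun k => hx.1 _, fun k l c e => σ.injective (hx.2 _ _ c e)⟩,
      pd_pd' ⟨fun k => hy.1 _, fun k l c e => τ.injective (hy.2 _ _ c e)⟩,
      fun k l => eq_zero_of_pow_eq_zero ((map_pow _ _ _).symm.trans (h0 _ _))⟩
  choose x y hx hy h0 using h1
  obtain ⟨L, _, _, _, π, hπ⟩ := ult ℂ ℕ (hyperfilter ℕ)
  have : Uncountable (ℕ → Bool) := Cardinal.aleph0_lt_mk_iff.1 (by
    simpa using Cardinal.aleph0_lt_continuum)
  obtain ⟨A, B, h2⟩ := nogrid hF hn hm hd he (pd_ult hπ hx) (pd_ult hπ hy)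
  refine h2 ?_
  rw [pt_map π, hπ]
  exact Eventually.of_forall fun j =>
    (pt_map (Pi.evalAlgHom ℂ (fun _ : ℕ => ℂ) j) _ _ F).symm.trans (h0 j _ _)

theorem surf (hF : Gn F d e) (hn : 3 ≤ n) (hm : 3 ≤ m) (hd : m ≤ d + 1) (he : n ≤ e + 1) :
    ∃ K : ℝ, ∀ k, ∀ c ∈ Cn (Ideal.span {F}) k, ∀ a b,
      1 * c (a + 1, b + 1) ≤ K * c (a + 2, b) + K * c (a, b + 2) := by
  obtain ⟨N, h3, hN⟩ := bdgrid hF hn hm hd he
  have h1 : F ^ N ∈ Forms n m (N * d, N * e) := by simpa using pow_mem_forms hF.1 N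
  obtain ⟨K, -, hK⟩ := stSURF n m _ _ _ (by omega) (by omega) h1 hN
  have gr : ∀ n, IsGr (n := n) 1 X := fun n =>
    ⟨isHomogeneous_X ℂ, fun L _ _ k ξ _ => ⟨1, one_ne_zero, fun i => by simp⟩⟩
  refine ⟨K, stCONE.surf fun P c p1 p2 p3 p4 => ?_⟩
  have h2 : (pull X X : S n m →ₐ[ℂ] S n m) = AlgHom.id ℂ _ := by
    ext (i | i) : 1 <;> simp [pull]
  simpa using hK 1 1 X X P c le_rfl le_rfl (gr n) (gr m) p1 p2 (by
    rw [h2]
    exact P.pow_mem_of_mem (p3 (Ideal.mem_span_singleton_self F)) N (Nat.pos_of_ne_zero h3)) p4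

end Pool.Agent.Lib.LI11
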