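import Pool.Agent.Lib.LI11.C

/-! Products inside the hypersurface. -/

open MvPolynomial Module Filter Pool.Agent.Lib.MP_08f962_ag Pool.Agent.Lib.CLF
open scoped NNReal

noncomputable section

namespace Pool.Agent.Lib.LI11

variable {n m d e k : ℕ} {F : S n m} {J : Ideal (S n m)} {c : ℕ × ℕ → ℝ}

/-- The coefficient of a monomial in the first group of variables. -/
def cy (F : S n m) (e : ℕ) (α : Fin (n + 1) →₀ ℕ) : S n m :=
  ∑ μ ∈ Finset.univ.finsuppAntidiag e,
    monomial ((0 : Fin (n + 1) →₀ ℕ).sumElim μ) (F.coeff (α.sumElim μ))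

theorem cy_mem (α : Fin (n + 1) →₀ ℕ) : cy F e α ∈ Forms n m (0, e) :=
  Submodule.sum_mem _ fun μ h => isWeightedHomogeneous_monomial _ _ _ (by
    rw [weight_elim, ← (Finset.mem_finsuppAntidiag.1 h).1]
    simp)

theorem eq_sum_cy (hF : F ∈ Forms n m (d, e)) : F = ∑ α ∈ Finset.univ.finsuppAntidiag d,
    monomial (α.sumElim (0 : Fin (m + 1) →₀ ℕ)) 1 * cy F e α := by
  classical
  have h1 : ∀ (α : Fin (n + 1) →₀ ℕ) (μ : Fin (m + 1) →₀ ℕ),
      α.sumElim (0 : Fin (m + 1) →₀ ℕ) + (0 : Fin (n + 1) →₀ ℕ).sumElim μ = α.sumElim μ :=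
    fun α μ => by ext (i | i) <;> simp
  ext γ
  obtain ⟨⟨β, ν⟩, rfl⟩ := Finsupp.sumFinsuppEquivProdFinsupp.symm.surjective γ
  have h2 : ∀ (α : Fin (n + 1) →₀ ℕ) (μ : Fin (m + 1) →₀ ℕ),
      α.sumElim μ = β.sumElim ν ↔ μ = ν ∧ α = β := fun α μ =>
    (Finsupp.sumFinsuppEquivProdFinsupp.symm.injective.eq_iff (a := (α, μ)) (b := (β, ν))).trans
      (Prod.mk_inj.trans and_comm)
  simp only [cy, Finset.mul_sum, monomial_mul, h1, one_mul, coeff_sum, coeff_monomial,
    Finsupp.sumFinsuppEquivProdFinsupp_symm_apply, h2, ite_and, Finset.sum_ite_eq',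
    Finset.mem_finsuppAntidiag, Finset.subset_univ, and_true]
  by_cases h : F.coeff (β.sumElim ν) = 0
  · rw [h]
    refine (Finset.sum_eq_zero fun α _ => ?_).symm
    split_ifs with _ h3
    · rw [h3, h]
    all_goals rfl
  · have := hF h
    rw [weight_elim, Prod.mk.injEq] at this
    simp [this.1, this.2]

theorem cn_anti {J' : Ideal (S n m)} (h : J ≤ J') (hc : c ∈ Cn J' k) : c ∈ Cn J k :=
  AddSubmonoid.closure_mono (by
    rintro _ ⟨P, a, b, c, d⟩
    exact ⟨P, a, b, h.trans c, d⟩) hc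

theorem cut1 {f : S n m} {u v : ℕ} (hf : f ∈ Forms n m (u, v)) (hc : c ∈ Cn J (k + 1)) :
    sh u v c ∈ Cn (J ⊔ Ideal.span {f}) k := by
  induction hc using AddSubmonoid.closure_induction with
  | zero =>
    rw [show sh u v 0 = 0 from funext fun _ => by simp [sh]]
    exact zero_mem _
  | add a b _ _ ha hb =>
    exact (show sh u v (a + b) = sh u v a + sh u v b from funext fun _ => by
      simp only [sh, Pi.add_apply]; ring) ▸ add_mem ha hb
  | mem c hc =>
    obtain ⟨P, p1, p2, p3, p4⟩ := hc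
    by_cases h : f ∈ P
    · have := stCONE.cut (J := P) (AddSubmonoid.subset_closure ⟨P, p1, p2, le_rfl, p4⟩)
      exact cn_anti (sup_le p3 ((Ideal.span_singleton_le_iff_mem _).2 h))
        ((show sh u v c = u • sh 1 0 c + v • sh 0 1 c from funext fun _ => by simp [sh]) ▸
          add_mem (nsmul_mem this.1 u) (nsmul_mem this.2 v))
    · exact cn_anti (sup_le_sup_right p3 _) (stCUTP n m P f u v k c p1 p2 hf h p4)

theorem cuts {ι : Type} (f : ι → S n m) {u v : ℕ} (hf : ∀ i, f i ∈ Forms n m (u, v))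
    (s : Finset ι) : ∀ {k}, c ∈ Cn J (k + s.card) →
      ∃ J', J ≤ J' ∧ (∀ i ∈ s, f i ∈ J') ∧ (sh u v)^[s.card] c ∈ Cn J' k := by
  classical
  induction s using Finset.induction_on with
  | empty => exact fun h => ⟨J, le_rfl, by simp, h⟩
  | insert i s hi ih =>
    intro k h
    rw [Finset.card_insert_of_notMem hi] at h ⊢
    obtain ⟨J', h1, h2, h3⟩ := ih (k := k + 1) (by rwa [add_right_comm])
    refine ⟨J' ⊔ Ideal.span {f i}, h1.trans le_sup_left, fun j hj => ?_, ?_⟩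
    · exact (Finset.mem_insert.1 hj).elim
        (fun e => e ▸ Ideal.mem_sup_right (Ideal.mem_span_singleton_self _))
        fun e => Ideal.mem_sup_left (h2 j e)
    · rw [Function.iterate_succ_apply']
      exact cut1 (hf i) h3

theorem sh_x (r : ℕ) (p : ℕ × ℕ) : (sh (1 : ℕ) (0 : ℕ))^[r] c p = c (p.1 + r, p.2) := by
  induction r generalizing p with
  | zero => rfl
  | succ r ih =>
    rw [Function.iterate_succ_apply', sh, ih, ih, add_assoc, add_comm 1 r]
    simp

theorem sh_y (r : ℕ) (p : ℕ × ℕ) :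
    (sh (0 : ℕ) e)^[r] c p = (e : ℝ) ^ r * c (p.1, p.2 + r) := by
  induction r generalizing p with
  | zero => simp
  | succ r ih =>
    rw [Function.iterate_succ_apply', sh, ih, ih, add_assoc, add_comm 1 r]
    simp only [Nat.cast_zero]
    ring

theorem ray (hF : F ∈ Forms n m (d, e)) (he : 1 ≤ e) {a b : ℕ} (ha : a ≤ n)
    (h : (a + d).choose d + b ≤ m) :
    ∃ t : ℝ, 0 < t ∧ Pi.single (a, b) t ∈ Cn (Ideal.span {F}) (a + b) := by
  classical
  let s := Finset.Ioi (⟨a, Nat.lt_succ_of_le ha⟩ : Fin (n + 1))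
  have c1 : s.card = n - a := by simp [s]
  have c2 : (sᶜ.finsuppAntidiag d).card = (a + d).choose d := by
    rw [Finset.card_finsuppAntidiag_nat_eq_choose, Finset.card_compl, c1, Fintype.card_fin]
    congr 1
    omega
  obtain ⟨r, hr⟩ := exists_add_of_le h
  obtain ⟨J, -, a2, a3⟩ := cuts (J := ⊥) (c := Pi.single (n, m) 1) _ x_mem s (k := a + m)
    (AddSubmonoid.subset_closure ⟨⊥, Ideal.isPrime_bot, fun f hf p => by
      rw [Ideal.mem_bot.1 hf, map_zero]; exact Ideal.zero_mem _, le_rfl,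
      (show n + m = a + m + s.card by omega) ▸ stBOT n m⟩)
  obtain ⟨J', b1, b2, b3⟩ := cuts (Sum.elim (cy F e) fun _ : ℕ => 0) (u := 0) (v := e)
    (by rintro (i | i); exacts [cy_mem _, zero_mem _])
    ((sᶜ.finsuppAntidiag d).disjSum (Finset.range r)) (k := a + b)
    (by rwa [Finset.card_disjSum, c2, Finset.card_range,
      show a + b + ((a + d).choose d + r) = a + m by omega])
  rw [Finset.card_disjSum, c2, Finset.card_range] at b3
  refine ⟨e ^ ((a + d).choose d + r), by positivity, cn_anti (J' := J') ?_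
    ((congrArg (· ∈ Cn J' (a + b)) (funext fun p => ?_)).mp b3)⟩
  · rw [Ideal.span_singleton_le_iff_mem, eq_sum_cy hF]
    refine sum_mem fun α hα => ?_
    by_cases h1 : α.support ⊆ sᶜ
    · refine J'.mul_mem_left _ (b2 (.inl α) (Finset.inl_mem_disjSum.2
        (Finset.mem_finsuppAntidiag.2 ⟨?_, h1⟩)))
      rw [← (Finset.mem_finsuppAntidiag.1 hα).1]
      exact Finset.sum_subset (Finset.subset_univ _) fun i _ hi =>
        Finsupp.notMem_support_iff.1 fun h2 => hi (h1 h2)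
    · obtain ⟨i, h2, h3⟩ := Finset.not_subset.1 h1
      exact J'.mul_mem_right _ (J'.mem_of_dvd (X_dvd_monomial.2 (Or.inr
        (Finsupp.mem_support_iff.1 h2 : α i ≠ 0))) (b1 (a2 i (by simpa using h3))))
  · rw [sh_y, sh_x, Pi.single_apply, Pi.single_apply, mul_ite, mul_one, mul_zero]
    refine if_congr ?_ rfl rfl
    rw [Prod.ext_iff, Prod.ext_iff]
    simp only
    omega

/-- The effective cone of the product of projective spaces. -/
def orthant (n m k : ℕ) : Set (ℕ × ℕ → ℝ) :=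
  {c | (∀ p, 0 ≤ c p) ∧ ∀ a b, c (a, b) ≠ 0 → a + b = k ∧ a ≤ n ∧ b ≤ m}

theorem eff_sub : effCone F k ⊆ orthant n m k := fun c hc => by
  have := stOC.eff (d := 0) (e := 0) (K := 0) (fun P c p1 p2 p3 p4 => by
    have h : c ∈ Cn (Ideal.span {F}) k := AddSubmonoid.subset_closure
      ⟨P, p1, p2, (Ideal.span_singleton_le_iff_mem _).2 p3, p4⟩
    exact ⟨stCONE.pos h, fun a b h1 => ⟨stCONE.deg h a b h1, stSUP _ _ _ _ _ h a b h1,
      stSUP _ _ _ _ _ (stSW.cn h) b a h1⟩, by simp, by simp, by simp⟩) hc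
  exact ⟨this.1, this.2.1⟩

theorem eff_eq (hF : F ∈ Forms n m (d, e)) (hd : 1 ≤ d) (he : 1 ≤ e)
    (h : ∀ a b, a + b = k → a ≤ n → b ≤ m → (a + d).choose d + b ≤ m ∨ (b + e).choose e + a ≤ n) :
    effCone F k = orthant n m k := by
  refine eff_sub.antisymm fun c ⟨c0, c1⟩ => subset_closure ?_
  have hw : c = ∑ p ∈ Finset.HasAntidiagonal.antidiagonal k, Pi.single p (c p) := by
    funext q
    simp only [Finset.sum_apply, Pi.single_apply, Finset.sum_ite_eq,
      Finset.HasAntidiagonal.mem_antidiagonal]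
    split_ifs with h
    · rfl
    · by_contra h1
      exact h (c1 q.1 q.2 h1).1
  rw [hw]
  refine Submodule.sum_mem _ fun ⟨a, b⟩ _ => ?_
  by_cases h0 : c (a, b) = 0
  · rw [h0, Pi.single_zero]
    exact zero_mem _
  obtain ⟨rfl, h1, h2⟩ := c1 a b h0
  obtain ⟨t, t0, ht⟩ : ∃ t : ℝ, 0 < t ∧ Pi.single (a, b) t ∈ Cn (Ideal.span {F}) (a + b) := by
    refine (h a b rfl h1 h2).elim (ray hF he h1) fun h3 => ?_
    obtain ⟨t, t0, ht⟩ := ray (stSW.form hF) hd h2 h3
    have := stSW.cn ht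
    rw [SW.sw_sw, add_comm b a] at this
    refine ⟨t, t0, (congrArg (· ∈ Cn _ (a + b)) (funext fun p => ?_)).mp this⟩
    simp only [Pi.single_apply, Prod.ext_iff, Prod.fst_swap, Prod.snd_swap, and_comm]
  have e1 : (Pi.single (a, b) (c (a, b)) : ℕ × ℕ → ℝ) =
      (⟨c (a, b) / t, div_nonneg (c0 _) t0.le⟩ : ℝ≥0) • Pi.single (a, b) t := by
    funext p
    change _ = c (a, b) / t * _
    rw [Pi.single_apply, Pi.single_apply, mul_ite, mul_zero, div_mul_cancel₀ _ t0.ne']
  rw [e1]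
  exact Submodule.smul_mem _ _ (INN.cn_sub ht)

theorem eff_le {φ : (ℕ × ℕ → ℝ) → ℝ} (h1 : IsLinearMap ℝ φ) (h2 : Continuous φ)
    (h : ∀ (P : Ideal (S n m)) c, P.IsPrime → IsBihom P → F ∈ P → Cl P k c → 0 ≤ φ c) :
    ∀ c ∈ effCone F k, 0 ≤ φ c :=
  (isClosed_le continuous_const h2).closure_subset_iff.2 fun c hc => by
    induction hc using Submodule.span_induction with
    | mem c hc =>
      obtain ⟨P, h1, h2, h3, q, h4, h5⟩ := hc
      exact h P c h1 h2 h3 ⟨q, h4.le, h5⟩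
    | zero => exact h1.map_zero.ge
    | add _ _ _ _ a b => exact (add_nonneg a b).trans_eq (h1.map_add _ _).symm
    | smul x _ _ a => exact (mul_nonneg x.2 a).trans_eq (h1.map_smul _ _).symm

theorem not_mid (hF : Gn F d e) (hn : 3 ≤ n) (hm : 3 ≤ m) (hd : m ≤ d + 1) (he : n ≤ e + 1)
    (a b : ℕ) : Pi.single (a + 1, b + 1) 1 ∉ effCone F k := fun h => by
  obtain ⟨K, hK⟩ := surf hF hn hm hd he
  have := eff_le (φ := fun c => K * c (a + 2, b) + K * c (a, b + 2) - 1 * c (a + 1, b + 1))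
    ⟨fun _ _ => by simp only [Pi.add_apply]; ring,
      fun _ _ => by simp only [Pi.smul_apply, smul_eq_mul]; ring⟩ (by fun_prop)
    (fun P c p1 p2 p3 p4 => sub_nonneg.2 (hK k c (AddSubmonoid.subset_closure
      ⟨P, p1, p2, (Ideal.span_singleton_le_iff_mem _).2 p3, p4⟩) a b)) _ h
  norm_num [Pi.single_apply] at this

end Pool.Agent.Lib.LI11
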