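import Pool.Agent.Lib.LI11.D

/-! Asymptotics of Hilbert functions and reduction of monomials. -/

open MvPolynomial Module Filter Topology Pool.Agent.Lib.MP_08f962_ag Pool.Agent.Lib.CLF

noncomputable section

namespace Pool.Agent.Lib.LI11

variable {n m d e k : ℕ} {F : S n m} {c : ℕ × ℕ → ℝ}

/-- The leading form of the Hilbert polynomial. -/
def Qf (k : ℕ) (s t : ℝ) (c : ℕ × ℕ → ℝ) : ℝ := ∑ p ∈ Finset.HasAntidiagonal.antidiagonal k,
  c p * (s ^ p.1 * t ^ p.2 / (p.1.factorial * p.2.factorial : ℕ))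

theorem asy {I : Ideal (S n m)} (h : Cl I k c) {σ τ : ℕ} (hσ : 1 ≤ σ) (hτ : 1 ≤ τ) (r r' : ℕ) :
    Tendsto (fun N : ℕ => (hf I (σ * N + r, τ * N + r') : ℝ) / N ^ k) atTop (𝓝 (Qf k σ τ c)) := by
  obtain ⟨q, q1, q2, q3⟩ := h
  have ht : Tendsto (fun N : ℕ => (σ * N + r, τ * N + r')) atTop atTop := by
    rw [← prod_atTop_atTop_eq]
    exact ((tendsto_add_atTop_nat r).comp (tendsto_id.const_mul_atTop' (hσ : 0 < σ))).prodMk
      ((tendsto_add_atTop_nat r').comp (tendsto_id.const_mul_atTop' (hτ : 0 < τ)))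
  have h0 := tendsto_inv_atTop_nhds_zero_nat (𝕜 := ℝ)
  have h1 : ∀ a b : ℕ, Tendsto (fun N : ℕ => (a : ℝ) + b * (N : ℝ)⁻¹) atTop (𝓝 a) := fun a b => by
    simpa using (h0.const_mul (b : ℝ)).const_add (a : ℝ)
  have h2 := tendsto_finsetSum q.support fun γ _ => ((((h1 σ r).pow (γ 0)).mul
    ((h1 τ r').pow (γ 1))).mul (h0.pow (k - (γ 0 + γ 1)))).const_mul (q.coeff γ)
  have h3 : ∀ γ ∈ q.support, γ 0 + γ 1 ≤ k := fun γ hγ => by
    have := (le_totalDegree hγ).trans q1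
    rwa [Finsupp.sum_fintype _ _ (by simp), Fin.sum_univ_two] at this
  have h4 : Qf k σ τ c = ∑ γ ∈ q.support,
      q.coeff γ * ((σ : ℝ) ^ γ 0 * τ ^ γ 1 * 0 ^ (k - (γ 0 + γ 1))) := by
    have h5 : ∀ p ∈ Finset.HasAntidiagonal.antidiagonal k,
        c p * ((σ : ℝ) ^ p.1 * τ ^ p.2 / (p.1.factorial * p.2.factorial : ℕ)) =
        q.coeff (Finsupp.single 0 p.1 + Finsupp.single 1 p.2) * ((σ : ℝ) ^ p.1 * τ ^ p.2) :=
      fun p hp => by
        rw [q3 p.1 p.2, if_pos (Finset.HasAntidiagonal.mem_antidiagonal.1 hp)]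
        field_simp
    rw [Qf, Finset.sum_congr rfl h5]
    refine Finset.sum_bij_ne_zero (fun p _ _ => Finsupp.single 0 p.1 + Finsupp.single 1 p.2)
      (fun p _ h => mem_support_iff.2 (left_ne_zero_of_mul h)) (fun p _ _ p' _ _ h => ?_)
      (fun γ hγ h => ?_) fun p hp _ => ?_
    · exact Prod.ext (by simpa using DFunLike.congr_fun h 0) (by simpa using DFunLike.congr_fun h 1)
    · have e1 : Finsupp.single 0 (γ 0) + Finsupp.single 1 (γ 1) = γ := by
        ext i
        fin_cases i <;> simp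
      refine ⟨(γ 0, γ 1), Finset.HasAntidiagonal.mem_antidiagonal.2 ?_, ?_, e1⟩
      · have := h3 γ hγ
        by_contra h6
        exact h (by rw [zero_pow (by omega), mul_zero, mul_zero])
      · rw [e1]
        exact fun h6 => h (by rw [← mul_assoc, h6, zero_mul])
    · simp [← Finset.HasAntidiagonal.mem_antidiagonal.1 hp]
  rw [h4]
  refine h2.congr' ?_
  filter_upwards [ht.eventually q2, eventually_ne_atTop 0] with N a1 a2
  rw [a1, eval_eq', Finset.sum_div]
  refine Finset.sum_congr rfl fun γ hγ => ?_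
  obtain ⟨u, rfl⟩ := exists_add_of_le (h3 γ hγ)
  have : (N : ℝ) ≠ 0 := Nat.cast_ne_zero.2 a2
  have e1 : ∀ a b : ℕ, (a : ℝ) + b * (N : ℝ)⁻¹ = (a * N + b : ℕ) / N := fun a b => by
    push_cast
    field_simp
  simp only [e1, Fin.prod_univ_two, Matrix.cons_val_zero, Matrix.cons_val_one, div_pow,
    add_tsub_cancel_left, pow_add, inv_pow]
  field_simp

theorem gen_pt {P : Ideal (S n m)} (hP : P.IsPrime) : ∃ (L : Type) (_ : Field L) (_ : Algebra ℂ L)
    (x : Fin (n + 1) → L) (y : Fin (m + 1) → L), ∀ f, f ∈ P ↔ pt x y f = 0 := by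
  let φ := (IsScalarTower.toAlgHom ℂ _ (FractionRing (S n m ⧸ P))).comp (Ideal.Quotient.mkₐ ℂ P)
  refine ⟨_, inferInstance, inferInstance, fun i => φ (X (.inl i)), fun i => φ (X (.inr i)),
    fun f => ?_⟩
  have : pt (fun i => φ (X (.inl i))) (fun i => φ (X (.inr i))) = φ := by
    ext (i | i) : 1 <;> simp [pt]
  rw [this, AlgHom.comp_apply, IsScalarTower.toAlgHom_apply,
    map_eq_zero_iff _ (IsFractionRing.injective _ _), Ideal.Quotient.mkₐ_eq_mk,
    Ideal.Quotient.eq_zero_iff_mem]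

variable {L : Type} [Field L] [Algebra ℂ L]

theorem rk_sum {ι : Type} (s : Finset ι) (V : ι → Submodule ℂ L)
    (h : ∀ i, FiniteDimensional ℂ (V i)) : FiniteDimensional ℂ (∑ i ∈ s, V i : Submodule ℂ L) ∧
      finrank ℂ (∑ i ∈ s, V i : Submodule ℂ L) ≤ ∑ i ∈ s, finrank ℂ (V i) := by
  classical
  induction s using Finset.induction_on with
  | empty =>
    rw [Finset.sum_empty, Submodule.zero_eq_bot]
    exact ⟨inferInstance, by simp⟩
  | insert i s hi ih =>
    obtain ⟨_, ih⟩ := ih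
    rw [Finset.sum_insert hi, Finset.sum_insert hi]
    exact ⟨Submodule.finiteDimensional_sup _ _,
      (Submodule.finrank_add_le_finrank_add_finrank _ _).trans (Nat.add_le_add_left ih _)⟩

theorem wt_inj {α β : Fin (n + 1) →₀ ℕ} (ha : ∑ i, α i = d) (hb : ∑ i, β i = d)
    (h : ∑ i, α i * (d + 1) ^ (i : ℕ) = ∑ i, β i * (d + 1) ^ (i : ℕ)) : α = β := by
  have h1 : ∀ {α : Fin (n + 1) →₀ ℕ}, ∑ i, α i = d → ∀ i, α i < d + 1 := fun h i =>
    Nat.lt_succ_of_le (h ▸ Finset.single_le_sum (fun _ _ => Nat.zero_le _) (Finset.mem_univ i))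
  have := finFunctionFinEquiv.injective (a₁ := fun i => (⟨α i, h1 ha i⟩ : Fin (d + 1)))
    (a₂ := fun i => ⟨β i, h1 hb i⟩) (Fin.ext (by simpa only [finFunctionFinEquiv_apply] using h))
  exact Finsupp.ext fun i => congrArg Fin.val (congrFun this i)

theorem reduce {x : Fin (n + 2) → L} {Y : Submodule ℂ L} {g : (Fin (n + 2) →₀ ℕ) → L}
    (hg : ∀ α, g α ∈ Y ^ e) (h0 : ∑ α ∈ Finset.univ.finsuppAntidiag d, (∏ i, x i ^ α i) * g α = 0)
    (h1 : ∃ α ∈ Finset.univ.finsuppAntidiag d, g α ≠ 0) :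
    ∃ l : L, l ≠ 0 ∧ ∀ (s j : ℕ) (β : Fin (n + 2) →₀ ℕ), ∑ i, β i = s →
      ∑ i, β i * (d + 1) ^ (i : ℕ) < j → l ^ j * ∏ i, x i ^ β i ∈
        (∑ i, ∑ r ∈ Finset.range d, Submodule.span ℂ {x i ^ r} *
          Submodule.span ℂ (Set.range fun t => x (i.succAbove t)) ^ (s - r)) * Y ^ (e * j) := by
  classical
  obtain ⟨α, a1, a2⟩ := Finset.exists_max_image
    ((Finset.univ.finsuppAntidiag d).filter (g · ≠ 0)) (fun α => ∑ i, α i * (d + 1) ^ (i : ℕ))
    (h1.imp fun _ => Finset.mem_filter.2)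
  obtain ⟨a3, a4⟩ := Finset.mem_filter.1 a1
  have a5 : ∑ i, α i = d := (Finset.mem_finsuppAntidiag.1 a3).1
  refine ⟨g α, a4, fun s j => ?_⟩
  induction j with
  | zero => exact fun _ _ h => absurd h (Nat.not_lt_zero _)
  | succ j ih =>
    intro β b1 b2
    by_cases h : α ≤ β
    · obtain ⟨γ, rfl⟩ := exists_add_of_le h
      rw [← Finset.add_sum_erase _ _ a3, add_eq_zero_iff_eq_neg] at h0
      have e1 : g α ^ (j + 1) * ∏ i, x i ^ (α + γ) i = -∑ δ ∈ (Finset.univ.finsuppAntidiag d).erase α,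
          (g α ^ j * ∏ i, x i ^ (δ + γ) i) * g δ := by
        simp only [Finsupp.add_apply, pow_add, Finset.prod_mul_distrib]
        rw [← Finset.sum_congr rfl fun δ _ => (show (g α ^ j * ∏ i, x i ^ γ i) *
          ((∏ i, x i ^ δ i) * g δ) = _ by ring), ← Finset.mul_sum, ← mul_neg, ← h0]
        ring
      rw [e1, mul_add, mul_one, pow_add, ← mul_assoc]
      refine neg_mem (sum_mem fun δ hδ => ?_)
      by_cases h2 : g δ = 0
      · rw [h2, mul_zero]
        exact zero_mem _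
      obtain ⟨d1, d2⟩ := Finset.mem_erase.1 hδ
      have d3 : ∑ i, δ i = d := (Finset.mem_finsuppAntidiag.1 d2).1
      have d4 := (a2 δ (Finset.mem_filter.2 ⟨d2, h2⟩)).lt_of_ne fun h => d1 (wt_inj d3 a5 h)
      refine Submodule.mul_mem_mul (ih _ ?_ ?_) (hg δ)
      all_goals
        simp only [Finsupp.add_apply, add_mul, Finset.sum_add_distrib] at b1 b2 ⊢
        omega
    · obtain ⟨i, hi⟩ : ∃ i, β i < α i := by simpa [Finsupp.le_def] using h
      have h2 : α i ≤ d :=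
        a5 ▸ Finset.single_le_sum (fun _ _ => Nat.zero_le _) (Finset.mem_univ i)
      rw [mul_comm (g α ^ _), pow_mul]
      refine Submodule.mul_mem_mul (Finset.single_le_sum (f := fun i => ∑ r ∈ Finset.range d,
        Submodule.span ℂ {x i ^ r} *
          Submodule.span ℂ (Set.range fun t => x (i.succAbove t)) ^ (s - r))
        (fun _ _ => bot_le) (Finset.mem_univ i) (Finset.single_le_sum (f := fun r =>
          Submodule.span ℂ {x i ^ r} *
          Submodule.span ℂ (Set.range fun t => x (i.succAbove t)) ^ (s - r))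
        (fun _ _ => bot_le) (Finset.mem_range.2 (hi.trans_le h2)) ?_))
        (Submodule.pow_mem_pow _ (hg α) _)
      rw [Fin.prod_univ_succAbove _ i, ← b1, Fin.sum_univ_succAbove _ i, add_tsub_cancel_left]
      exact Submodule.mul_mem_mul (Submodule.mem_span_singleton_self _) (HV.prod_mem_pow _ _ _)

end Pool.Agent.Lib.LI11
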