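import Pool.Agent.Lib.LI11.E

/-! The ray of a full first factor. -/

open MvPolynomial Module Filter Topology Pool.Agent.Lib.MP_08f962_ag Pool.Agent.Lib.CLF

noncomputable section

namespace Pool.Agent.Lib.LI11

variable {n m d e k : ℕ} {c : ℕ × ℕ → ℝ} {L : Type} [Field L] [Algebra ℂ L]

theorem pt_mono (x : Fin (n + 1) → L) (y : Fin (m + 1) → L) (α : Fin (n + 1) →₀ ℕ)
    (μ : Fin (m + 1) →₀ ℕ) (a : ℂ) : pt x y (monomial (α.sumElim μ) a) =
      algebraMap ℂ L a * ((∏ i, x i ^ α i) * ∏ j, y j ^ μ j) := by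
  rw [pt, aeval_monomial, Finsupp.prod_fintype _ _ (by simp), Fintype.prod_sum_type]
  rfl

theorem rk_mul_le (a : L) (V : Submodule ℂ L) [FiniteDimensional ℂ V] :
    finrank ℂ (Submodule.span ℂ {a} * V : Submodule ℂ L) ≤ finrank ℂ V := by
  by_cases h : a = 0
  · rw [h, Submodule.span_zero_singleton, Submodule.bot_mul, finrank_bot]
    exact Nat.zero_le _
  · exact (rk_mul h V).le

theorem vv_le {F : S (n + 1) m} (hF : F ∈ Forms (n + 1) m (d, e)) (x : Fin (n + 2) → L)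
    (y : Fin (m + 1) → L) (h0 : pt x y F = 0)
    (h1 : ∃ α ∈ Finset.univ.finsuppAntidiag d, pt x y (cy F e α) ≠ 0) (s t : ℕ) :
    finrank ℂ (VV x y (s, t)) ≤ ∑ i : Fin (n + 2), ∑ r ∈ Finset.range d, finrank ℂ
      (VV (fun t => x (i.succAbove t)) y (s - r, e * ((d + 1) ^ (n + 1) * s + 1) + t)) := by
  obtain ⟨l, l0, hl⟩ := reduce (d := d) (e := e) (x := x) (Y := Submodule.span ℂ (Set.range y))
    (g := fun α => pt x y (cy F e α)) (fun α => by
      have : pt x y (cy F e α) ∈ VV x y (0, e) := ⟨_, cy_mem α, rfl⟩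
      rwa [stHV.pow, pow_zero, one_mul] at this) (by
      rw [eq_sum_cy hF, map_sum] at h0
      simpa [pt_mono] using h0) h1
  generalize hj : (d + 1) ^ (n + 1) * s + 1 = j
  have fin := fun (i : Fin (n + 2)) (r : ℕ) => stHV.fin (fun t => x (i.succAbove t)) y
    (s - r, e * j + t)
  have h2 := fun i : Fin (n + 2) => rk_sum (Finset.range d) (fun r => Submodule.span ℂ {x i ^ r} *
    VV (fun t => x (i.succAbove t)) y (s - r, e * j + t)) fun r => fin_mul _ _
  obtain ⟨_, h3⟩ := rk_sum Finset.univ _ fun i => (h2 i).1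
  rw [← rk_mul (pow_ne_zero j l0)]
  refine (Submodule.finrank_mono ?_).trans (h3.trans (Finset.sum_le_sum fun i _ =>
    (h2 i).2.trans (Finset.sum_le_sum fun r _ => rk_mul_le _ _)))
  simp only [stHV.pow (x := fun t => x (Fin.succAbove _ t)), ← mul_assoc, ← Finset.sum_mul, pow_add]
  rw [Submodule.mul_le]
  rintro a ha _ ⟨f, hf, rfl⟩
  obtain ⟨a, rfl⟩ := Submodule.mem_span_singleton.1 ha
  rw [smul_mul_assoc]
  refine Submodule.smul_mem _ _ (forms_ind (Q := fun f => l ^ j * (pt x y).toLinearMap f ∈ _)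
    (by simp) (fun f g a b => by rw [map_add, mul_add]; exact add_mem a b) (fun γ b hγ => ?_) hf)
  obtain ⟨⟨β, μ⟩, rfl⟩ := Finsupp.sumFinsuppEquivProdFinsupp.symm.surjective γ
  rw [Finsupp.sumFinsuppEquivProdFinsupp_symm_apply] at hγ ⊢
  rw [weight_elim, Prod.mk.injEq] at hγ
  rw [AlgHom.toLinearMap_apply, pt_mono, mul_left_comm, ← Algebra.smul_def, ← mul_assoc]
  refine Submodule.smul_mem _ _ (Submodule.mul_mem_mul (hl s j β hγ.1 ?_)
    (hγ.2 ▸ HV.prod_mem_pow _ _ _))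
  rw [← hj, ← hγ.1, Finset.mul_sum]
  exact Nat.lt_succ_of_le (Finset.sum_le_sum fun i _ => (mul_comm _ _).trans_le
    (Nat.mul_le_mul_right _ (Nat.pow_le_pow_right d.succ_pos (Nat.le_of_lt_succ i.2))))

theorem qf_nonneg {s t : ℝ} (hs : 0 ≤ s) (ht : 0 ≤ t) (h : ∀ p, 0 ≤ c p) : 0 ≤ Qf k s t c :=
  Finset.sum_nonneg fun p _ => mul_nonneg (h p) (by positivity)

theorem top_le {F : S (n + 1) m} (hF : F ∈ Forms (n + 1) m (d, e)) {P : Ideal (S (n + 1) m)}
    (p1 : P.IsPrime) (p2 : IsBihom P) (p3 : F ∈ P) {b : ℕ} (p4 : Cl P (n + 1 + b) c)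
    (h1 : ∃ α ∈ Finset.univ.finsuppAntidiag d, cy F e α ∉ P) {T : ℕ}
    (hT : e * (d + 1) ^ (n + 1) + 1 ≤ T) :
    c (n + 1, b) / ((n + 1).factorial * b.factorial : ℕ) ≤ (n + 2 : ℕ) * d *
      ((e * (d + 1) ^ (n + 1) + 1 : ℕ) / T) ^ (b + 1) * Qf (n + 1 + b) 1 T c := by
  obtain ⟨L, _, _, x, y, h⟩ := gen_pt p1
  have a1 : ∀ p, hf P p = finrank ℂ (VV x y p) := fun p => stHV.eq x y p fun f _ => h f
  have a2 : ∀ i : Fin (n + 2), ∃ (I : Ideal (S n m)) (c' : ℕ × ℕ → ℝ), Cl I (n + 1 + b) c' ∧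
      c' ∈ Cn I (n + 1 + b) ∧ (∀ p, hf I p ≤ hf P p) ∧
      ∀ p, hf I p = finrank ℂ (VV (fun t => x (i.succAbove t)) y p) := fun i => by
    let I := Ideal.span {f | (∃ p, f ∈ Forms n m p) ∧ pt (fun t => x (i.succAbove t)) y f = 0}
    have b1 : IsBihom I := by
      let := weightedGradedAlgebra ℂ (wt n m)
      exact isBihom_iff.2 (Ideal.homogeneous_span _ _ fun f hf => hf.1)
    have b2 : ∀ p, hf I p = finrank ℂ (VV (fun t => x (i.succAbove t)) y p) := fun p =>
      stHV.eq _ y p fun f hf => ⟨fun h => (Ideal.span_le (I := RingHom.ker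
        (pt (fun t => x (i.succAbove t)) y))).2 (fun _ h => h.2) h,
          fun h => Ideal.subset_span ⟨⟨p, hf⟩, h⟩⟩
    have b3 : ∀ p, hf I p ≤ hf P p := fun p => by
      have := stHV.fin x y p
      rw [a1, b2]
      refine Submodule.finrank_mono ?_
      rw [stHV.pow, stHV.pow]
      exact mul_le_mul' (pow_le_pow_left' (Submodule.span_mono (by
        rintro _ ⟨t, rfl⟩
        exact ⟨_, rfl⟩)) _) le_rfl
    obtain ⟨q, q1, q2, -⟩ := p4
    obtain ⟨q', hq⟩ := stHEX.ex b1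
    have b4 : Cl I (n + 1 + b) fun p => if p.1 + p.2 = n + 1 + b then
        (p.1.factorial * p.2.factorial : ℕ) *
          q'.coeff (Finsupp.single 0 p.1 + Finsupp.single 1 p.2) else 0 :=
      ⟨q', stPDEG.le q' q _ q1 ((hq.and q2).mono fun p hp => by
        rw [← hp.1, ← hp.2]
        exact ⟨Nat.cast_nonneg _, Nat.cast_le.2 (b3 p)⟩), hq, fun _ _ => rfl⟩
    exact ⟨I, _, b4, stDEC _ _ _ _ _ b1 b4, b3, b2⟩
  choose I c' c1 c2 c3 c4 using a2
  have pos := stCONE.pos (stDEC _ _ _ _ _ p2 p4)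
  generalize hC : e * (d + 1) ^ (n + 1) + 1 = C at hT
  have C1 : 1 ≤ C := by omega
  have T0 : (0 : ℝ) < T := Nat.cast_pos.2 (by omega)
  have a3 : Qf (n + 1 + b) (1 : ℕ) (1 : ℕ) c ≤ ∑ i, ∑ r ∈ Finset.range d,
      Qf (n + 1 + b) (1 : ℕ) C (c' i) := by
    refine le_of_tendsto_of_tendsto' (asy p4 le_rfl le_rfl d 0) (tendsto_finsetSum _ fun i _ =>
      tendsto_finsetSum _ fun r _ => asy (c1 i) le_rfl C1 (d - r)
        (e * ((d + 1) ^ (n + 1) * d + 1))) fun N => ?_
    simp only [← Finset.sum_div]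
    refine div_le_div_of_nonneg_right ?_ (by positivity)
    norm_cast
    rw [a1]
    refine (vv_le hF x y ((h F).1 p3) (h1.imp fun α hα => ⟨hα.1, fun e => hα.2 ((h _).2 e)⟩) _ _).trans
      (Finset.sum_le_sum fun i _ => Finset.sum_le_sum fun r hr => ?_)
    rw [c4, ← hC, Nat.add_sub_assoc (Finset.mem_range.1 hr).le,
      show e * ((d + 1) ^ (n + 1) * (1 * N + d) + 1) + (1 * N + 0) =
        (e * (d + 1) ^ (n + 1) + 1) * N + e * ((d + 1) ^ (n + 1) * d + 1) by ring]
  have a4 : ∀ i, Qf (n + 1 + b) (1 : ℕ) C (c' i) ≤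
      ((C : ℝ) / T) ^ (b + 1) * Qf (n + 1 + b) (1 : ℕ) T c := fun i => by
    refine le_trans ?_ (mul_le_mul_of_nonneg_left (le_of_tendsto_of_tendsto'
      (asy (c1 i) le_rfl (C1.trans hT) 0 0) (asy p4 le_rfl (C1.trans hT) 0 0) fun N =>
        div_le_div_of_nonneg_right (Nat.cast_le.2 (c3 i _)) (by positivity)) (by positivity))
    rw [Qf, Qf, Finset.mul_sum]
    refine Finset.sum_le_sum fun p hp => ?_
    by_cases h0 : c' i p = 0
    · simp [h0]
    have b1 := stSUP _ _ _ _ _ (c2 i) p.1 p.2 h0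
    have b2 := Finset.HasAntidiagonal.mem_antidiagonal.1 hp
    have b3 : (C : ℝ) ^ p.2 ≤ ((C : ℝ) / T) ^ (b + 1) * T ^ p.2 := by
      rw [← div_le_iff₀ (by positivity), ← div_pow]
      exact pow_le_pow_of_le_one (by positivity) ((div_le_one T0).2 (Nat.cast_le.2 hT)) (by omega)
    rw [mul_left_comm, ← mul_div_assoc (_ ^ (b + 1)), mul_left_comm (_ ^ (b + 1))]
    have := stCONE.pos (c2 i) p
    gcongr
  have a5 : c (n + 1, b) / ((n + 1).factorial * b.factorial : ℕ) ≤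
      Qf (n + 1 + b) (1 : ℕ) (1 : ℕ) c := by
    refine le_trans ?_ (Finset.single_le_sum (a := (n + 1, b))
      (fun p _ => mul_nonneg (pos p) (by positivity)) (by simp))
    simp [div_eq_mul_inv]
  refine a5.trans (a3.trans ((Finset.sum_le_sum fun i _ => Finset.sum_le_sum fun _ _ => a4 i).trans_eq
    ?_))
  simp [mul_assoc]

theorem cl_zero {F : S n m} (hF : Gn F d e) {P : Ideal (S n m)} (p1 : P.IsPrime) (p4 : Cl P k c)
    (h1 : ∀ α ∈ Finset.univ.finsuppAntidiag d, cy F e α ∈ P) {s : Finset (Fin (m + 1))}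
    (h2 : ∀ j ∈ s, X (.inr j) ∈ P) (h3 : m < (n + d).choose d + s.card) : c = 0 := by
  classical
  refine stHEX.zero p4 (Or.inr fun j => by_contra fun hj => ?_)
  obtain ⟨L, _, _, x, y, h⟩ := gen_pt p1
  have : CharZero L := charZero_of_injective_algebraMap (algebraMap ℂ L).injective
  have y0 : y j ≠ 0 := fun e => hj ((h _).2 (by simp [pt, e]))
  have hw : ∀ p : ↥(Finset.univ.finsuppAntidiag d : Finset (Fin (n + 1) →₀ ℕ)) ×
      ↥(Finset.univ.finsuppAntidiag e : Finset (Fin (m + 1) →₀ ℕ)),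
      Finsupp.weight (wt n m) (p.1.1.sumElim p.2.1) = (d, e) := fun p => by
    rw [weight_elim]
    exact Prod.ext (Finset.mem_finsuppAntidiag.1 p.1.2).1 (Finset.mem_finsuppAntidiag.1 p.2.2).1
  have key := stTRD L _ (Finset.univ.finsuppAntidiag d : Finset (Fin (n + 1) →₀ ℕ))
    ((sᶜ.erase j).image ((y j)⁻¹ • y)) _
    (fun α p => if p.1 = α then ∏ i, ((y j)⁻¹ • y) i ^ p.2.1 i else 0)
    ((hF.2.map' (f := (algebraMap ℂ L).toRatAlgHom) (algebraMap ℂ L).injective).comp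
      (fun p => ⟨_, hw p⟩) fun p q e => by
        have := Finsupp.sumFinsuppEquivProdFinsupp.symm.injective (a₁ := (p.1.1, p.2.1))
          (a₂ := (q.1.1, q.2.1)) (congrArg Subtype.val e)
        exact Prod.ext (Subtype.ext (congrArg Prod.fst this)) (Subtype.ext (congrArg Prod.snd this)))
    (fun α p => ?_) ?_ fun α => ?_
  · have a1 := Finset.card_image_le (s := sᶜ.erase j) (f := (y j)⁻¹ • y)
    have a2 : j ∈ sᶜ := Finset.mem_compl.2 fun h => hj (h2 j h)
    have a3 := Finset.card_add_card_compl s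
    have a4 := Finset.card_pos.2 ⟨j, a2⟩
    rw [Finset.card_erase_of_mem a2] at a1
    rw [Fintype.card_coe, Finset.card_finsuppAntidiag_nat_eq_choose, Finset.card_univ,
      Fintype.card_fin, show n + 1 + d - 1 = n + d by omega] at key
    rw [Fintype.card_fin] at a3
    omega
  · split_ifs
    · refine prod_mem fun i _ => pow_mem ?_ _
      by_cases a1 : i = j
      · rw [a1, Pi.smul_apply, smul_eq_mul, inv_mul_cancel₀ y0]
        exact one_mem _
      by_cases a2 : i ∈ s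
      · have : y i = 0 := by simpa [pt] using (h _).1 (h2 i a2)
        rw [Pi.smul_apply, this, smul_zero]
        exact zero_mem _
      · exact Subfield.subset_closure (Finset.mem_image_of_mem _ (by simp [a1, a2]))
    · exact zero_mem _
  · rw [Fintype.linearIndependent_iff]
    intro γ hγ α
    have := congrFun hγ (α, ⟨Finsupp.single j e, by simp [Finset.mem_finsuppAntidiag]⟩)
    simp only [Finset.sum_apply, Pi.smul_apply, smul_eq_mul, mul_ite, mul_zero, Finset.sum_ite_eq,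
      Finset.mem_univ, if_true, Pi.zero_apply] at this
    refine (mul_eq_zero.1 this).resolve_right (Finset.prod_ne_zero_iff.2 fun i _ => ?_)
    by_cases a1 : j = i
    · exact a1 ▸ pow_ne_zero _ (mul_ne_zero (inv_ne_zero y0) y0)
    · simp [a1]
  · have := NG.scale x y 1 (y j)⁻¹ (cy_mem (F := F) (e := e) α.1)
    rw [(h _).1 (h1 _ α.2), mul_zero, cy, map_sum, ← Finset.sum_coe_sort] at this
    simp only [pt_mono, Finsupp.coe_zero, Pi.zero_apply, pow_zero, Finset.prod_const_one,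
      one_mul] at this
    rw [Fintype.sum_prod_type, Finset.sum_eq_single α (fun β _ hβ => by simp [hβ]) (by simp), ← this]
    exact Finset.sum_congr rfl fun μ _ => by rw [if_pos rfl, mul_comm]; rfl

theorem not_top {F : S n m} (hF : Gn F d e) (hn : 1 ≤ n) (hd : 1 ≤ d) {b : ℕ} (hb : b ≤ m)
    (h : m < (n + d).choose d + b) : Pi.single (n, b) 1 ∉ effCone F (n + b) := fun hc => by
  obtain ⟨n, rfl⟩ := Nat.exists_eq_add_one_of_ne_zero (Nat.one_le_iff_ne_zero.1 hn)
  generalize hC : e * (d + 1) ^ (n + 1) + 1 = C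
  have C1 : 1 ≤ C := by omega
  generalize hT : (n + 2) * d * C ^ (b + 1) + 1 = T
  have hCT : C ≤ T := by
    rw [← hT]
    exact ((Nat.le_self_pow b.succ_ne_zero C).trans (Nat.le_mul_of_pos_left _ (by positivity))).trans
      (Nat.le_succ _)
  have T0 : (0 : ℝ) < T := Nat.cast_pos.2 (by omega)
  have := eff_le (φ := fun c => (n + 2 : ℕ) * d * ((C : ℝ) / T) ^ (b + 1) * Qf (n + 1 + b) 1 T c -
      c (n + 1, b) / ((n + 1).factorial * b.factorial : ℕ))
    ⟨fun _ _ => by simp only [Qf, Pi.add_apply, add_mul, Finset.sum_add_distrib]; ring,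
      fun _ _ => by simp only [Qf, Pi.smul_apply, smul_eq_mul, mul_assoc, ← Finset.mul_sum]; ring⟩
    (by unfold Qf; fun_prop) (fun P c p1 p2 p3 p4 => sub_nonneg.2 ?_) _ hc
  · rw [Qf, Finset.sum_eq_single (n + 1, b) (fun p _ hp => by simp [hp]) (by simp),
      Pi.single_eq_same, one_mul, one_pow, one_mul, ← mul_div_assoc, ← sub_div,
      le_div_iff₀ (by positivity), zero_mul, sub_nonneg, div_pow, pow_succ (T : ℝ), mul_assoc,
      div_mul_eq_mul_div, mul_comm (_ ^ b), mul_div_mul_right _ _ (by positivity), ← mul_div_assoc,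
      one_le_div T0, ← hT] at this
    norm_cast at this
    omega
  by_cases h1 : ∃ α ∈ Finset.univ.finsuppAntidiag d, cy F e α ∉ P
  · exact hC ▸ top_le hF.1 p1 p2 p3 p4 h1 (hC ▸ hCT)
  push Not at h1
  have a1 := stDEC _ _ _ _ _ p2 p4
  obtain ⟨s, -, hs⟩ := Finset.exists_subset_card_eq (s := (Finset.univ : Finset (Fin (m + 1))))
    (n := b) (by simpa using hb.trans m.le_succ)
  obtain ⟨J, a2, a3, a4⟩ := cuts _ y_mem s (k := n + 1) (hs ▸ a1)
  have a5 : (sh (0 : ℕ) (1 : ℕ))^[s.card] c = 0 := by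
    generalize (sh (0 : ℕ) (1 : ℕ))^[s.card] c = c' at a4
    induction a4 using AddSubmonoid.closure_induction with
    | mem c hc =>
      obtain ⟨Q, q1, -, q3, q4⟩ := hc
      exact cl_zero hF q1 q4 (fun α hα => q3 (a2 (h1 α hα))) (fun j hj => q3 (a3 j hj)) (hs ▸ h)
    | zero => rfl
    | add _ _ _ _ u v => rw [u, v, add_zero]
  have a6 := congrFun a5 (n + 1, 0)
  rw [sh_y, hs] at a6
  simp only [Nat.cast_one, one_pow, one_mul, zero_add, Pi.zero_apply] at a6
  rw [a6, zero_div]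
  exact mul_nonneg (by positivity) (qf_nonneg zero_le_one T0.le (stCONE.pos a1))

end Pool.Agent.Lib.LI11
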