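import Pool.Agent.Lib.LI11.F

/-! The criterion. -/

open MvPolynomial Module Filter Topology Pool.Agent.Lib.MP_08f962_ag Pool.Agent.Lib.CLF

noncomputable section

namespace Pool.Agent.Lib.LI11

variable {n m d e k : ℕ} {F : S n m}

theorem Gn.sw (h : Gn F d e) : Gn (sw F) e d := by
  refine ⟨stSW.form h.1, (congrArg (fun v => AlgebraicIndependent ℚ v) (funext fun α => ?_)).mp
    (h.2.comp (fun α => ⟨α.1.mapDomain Sum.swap, by rw [SW.wt_map, α.2]; rfl⟩) fun α β e =>
      Subtype.ext (Finsupp.mapDomain_injective SW.swap_inj (congrArg Subtype.val e)))⟩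
  have := coeff_rename_mapDomain _ SW.swap_inj (CLF.sw F) α.1
  rwa [show rename Sum.swap (CLF.sw F) = F from SW.sw_sw F] at this

theorem eff_sw {c : ℕ × ℕ → ℝ} (h : c ∈ effCone F k) :
    (fun p => c p.swap) ∈ effCone (sw F) k := by
  refine map_mem_closure (f := fun (c : ℕ × ℕ → ℝ) (p : ℕ × ℕ) => c p.swap) (by fun_prop) h
    fun c hc => ?_
  induction hc using Submodule.span_induction with
  | mem c hc =>
    obtain ⟨P, h1, h2, h3, q, h4, h5⟩ := hc
    exact INN.cn_sub (stSW.cn (AddSubmonoid.subset_closure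
      ⟨P, h1, h2, (Ideal.span_singleton_le_iff_mem _).2 h3, q, h4.le, h5⟩))
  | zero => exact zero_mem _
  | add _ _ _ _ a b => exact add_mem a b
  | smul x _ _ a => exact Submodule.smul_mem _ x a

theorem choose_mono (d a r : ℕ) (hd : 1 ≤ d) : (a + d).choose d + r ≤ (a + r + d).choose d := by
  induction r with
  | zero => rfl
  | succ r ih =>
    obtain ⟨d, rfl⟩ := Nat.exists_eq_add_one_of_ne_zero (Nat.one_le_iff_ne_zero.1 hd)
    rw [show a + (r + 1) + (d + 1) = a + r + (d + 1) + 1 by ring, Nat.choose_succ_succ']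
    have := Nat.choose_pos (show d ≤ a + r + (d + 1) by omega)
    omega

theorem mem_orthant {a b : ℕ} (h : a + b = k) (ha : a ≤ n) (hb : b ≤ m) :
    Pi.single (a, b) 1 ∈ orthant n m k :=
  ⟨fun p => by rw [Pi.single_apply]; positivity, fun a' b' h' => by
    obtain ⟨rfl, rfl⟩ := Prod.mk.inj (not_not.1 fun e => h' (Pi.single_eq_of_ne e _))
    exact ⟨h, ha, hb⟩⟩

theorem top_case (hF : Gn F d e) (hn : 1 ≤ n) (hd : 1 ≤ d) (hk : n ≤ k)
    (h : ∀ a b, a + b = k → a ≤ n → b ≤ m → Pi.single (a, b) 1 ∈ effCone F k) (a b : ℕ)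
    (h1 : a + b = k) (ha : a ≤ n) (hb : b ≤ m) : (a + d).choose d + b ≤ m := by
  obtain ⟨r, rfl⟩ := exists_add_of_le ha
  obtain ⟨b, rfl⟩ := exists_add_of_le (show r ≤ b by omega)
  have h2 := choose_mono d a r hd
  by_contra h3
  exact not_top hF hn hd (b := b) (by omega) (by omega)
    ((show k = a + r + b by omega) ▸ h _ _ (by omega) le_rfl (by omega))

theorem main (n m d e : ℕ) (hn : 1 ≤ n) (hm : 1 ≤ m) (hd : 1 ≤ d) (he : 1 ≤ e) :
    VeryGeneral (n := n) (m := m) (d, e) fun F => ∀ k,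
      k ≤ 2 ∨ n ≤ k ∨ m ≤ k ∨ (m ≤ d + 1 ∧ n ≤ e + 1) → (effCone F k = orthant n m k ↔
        ∀ a b, a + b = k → a ≤ n → b ≤ m →
          (a + d).choose d + b ≤ m ∨ (b + e).choose e + a ≤ n) := by
  obtain ⟨T, h2, h3, h4⟩ := veryGeneral (n := n) (m := m) (d, e)
  refine ⟨T, h2, h3, fun F hF hT k hk => ⟨fun h a b h1 ha hb => ?_, eff_eq hF hd he⟩⟩
  have g : Gn F d e := ⟨hF, h4 F hF hT⟩
  have h5 : ∀ a b, a + b = k → a ≤ n → b ≤ m → Pi.single (a, b) 1 ∈ effCone F k :=
    fun a b h1 ha hb => h ▸ mem_orthant h1 ha hb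
  by_cases c1 : n ≤ k
  · exact Or.inl (top_case g hn hd c1 h5 a b h1 ha hb)
  by_cases c2 : m ≤ k
  · refine Or.inr (top_case g.sw hm he c2 (fun b a h1 hb ha => ?_) b a (by omega) hb ha)
    refine (congrArg (· ∈ effCone _ k) (funext fun p => ?_)).mp (eff_sw (h5 a b (by omega) ha hb))
    simp only [Pi.single_apply, Prod.ext_iff, Prod.fst_swap, Prod.snd_swap, and_comm]
  rcases a with _ | a
  · exact Or.inl (by simp; omega)
  rcases b with _ | b
  · exact Or.inr (by simp; omega)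
  by_contra! h6
  refine not_mid g (by omega) (by omega) ?_ ?_ a b (h5 _ _ h1 ha hb)
  all_goals
    refine (or_assoc.2 (or_assoc.2 hk)).elim (fun h7 => ?_) (by omega)
    obtain rfl : a = 0 := by omega
    obtain rfl : b = 0 := by omega
    simp only [zero_add, add_comm 1, Nat.choose_succ_self_right] at h6
    omega

end Pool.Agent.Lib.LI11
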