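import Pool.Agent.Lib.LI11.G

/-! Transcendence degrees over a base field, embeddings into the complex numbers. -/

open MvPolynomial Module Filter Pool.Agent.Lib.MP_08f962_ag Pool.Agent.Lib.CLF

noncomputable section

namespace Pool.Agent.Lib.LI11

/-- Elements algebraic over the ring generated by `T`. -/
def acl (k : Type) {L : Type} [Field k] [Field L] [Algebra k L] (T : Set L) : Subfield L where
  carrier := {x | IsAlgebraic (Algebra.adjoin k T) x}
  mul_mem' a b := a.mul b
  add_mem' a b := a.add b
  one_mem' := isAlgebraic_one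
  zero_mem' := isAlgebraic_zero
  neg_mem' a := a.neg
  inv_mem' _ a := IsAlgebraic.inv_iff.2 a

variable {k L : Type} [Field k] [Field L] [Algebra k L]

theorem acl_eq (T : Set L) : (acl k T : Set L) = (AlgebraicIndependent.matroid k L).closure T :=
  AlgebraicIndependent.matroid_closure_eq.symm

theorem sub_acl {T : Set L} {x : L} (h : x ∈ T) : x ∈ acl k T :=
  isAlgebraic_algebraMap (⟨x, Algebra.subset_adjoin h⟩ : Algebra.adjoin k T)

theorem base_acl (T : Set L) (c : k) : algebraMap k L c ∈ acl k T :=
  isAlgebraic_algebraMap (algebraMap k (Algebra.adjoin k T) c)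

theorem acl_mono {T T' : Set L} (h : T ⊆ T') : acl k T ≤ acl k T' := fun x hx => by
  rw [← SetLike.mem_coe, acl_eq] at hx ⊢
  exact Matroid.closure_subset_closure _ h hx

theorem acl_trans {k' : Type} [Field k'] [Algebra k' L] {T T' : Set L}
    (h1 : ∀ c, algebraMap k' L c ∈ acl k T) (h2 : ∀ x ∈ T', x ∈ acl k T) : acl k' T' ≤ acl k T :=
  fun x hx => by
  have h3 : ∀ y ∈ Algebra.adjoin k' T', y ∈ acl k T := fun y hy => by
    induction hy using Algebra.adjoin_induction with
    | mem y hy => exact h2 y hy
    | algebraMap c => exact h1 c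
    | add _ _ _ _ a b => exact add_mem a b
    | mul _ _ _ _ a b => exact mul_mem a b
  have h4 : x ∈ acl k (acl k T : Set L) := IsAlgebraic.ringHom_of_comp_eq (g := RingHom.id L)
    (f := (Algebra.adjoin k' T').val.toRingHom.codRestrict (Algebra.adjoin k (acl k T : Set L))
      fun y => Algebra.subset_adjoin (h3 y y.2)) hx
    (fun a b e => Subtype.ext (congrArg Subtype.val e :)) rfl
  rwa [← SetLike.mem_coe, acl_eq, acl_eq, Matroid.closure_closure, ← acl_eq] at h4

theorem trd' {ι ι' κ : Type} [Fintype ι] [Fintype ι'] [Fintype κ]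
    (T : Finset L) (g : ι → L) (z : ι' → L) (A : κ → ι → L)
    (hg : AlgebraicIndependent k (Sum.elim g z)) (hz : ∀ i, z i ∈ acl k (T : Set L))
    (hA : ∀ j i, A j i ∈ acl k (T : Set L)) (hl : LinearIndependent L A)
    (h0 : ∀ j, ∑ i, A j i * g i = 0) : Fintype.card κ + Fintype.card ι' ≤ T.card := by
  classical
  set K := acl k (T : Set L)
  let A' : κ → ι → K := fun k i => ⟨A k i, hA k i⟩
  have hl' : LinearIndependent K A' := by
    rw [Fintype.linearIndependent_iff] at hl ⊢
    intro c hc k
    refine Subtype.ext (hl (fun k => c k) (funext fun i => ?_) k)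
    have := congrArg Subtype.val (congrFun hc i)
    simpa [A'] using this
  let f := Fintype.linearCombination K g
  have h1 : Fintype.card κ ≤ finrank K (LinearMap.ker f) := by
    refine LinearIndependent.fintype_card_le_finrank (b := fun k => ⟨A' k, ?_⟩)
      (LinearIndependent.of_comp (LinearMap.ker f).subtype hl')
    rw [LinearMap.mem_ker, Fintype.linearCombination_apply]
    exact h0 k
  have h2 := f.finrank_range_add_finrank_ker
  rw [finrank_fintype_fun_eq_card, Fintype.range_linearCombination] at h2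
  have : Module.Finite K (Submodule.span K (Set.range g)) :=
    Module.Finite.span_of_finite K (Set.finite_range g)
  obtain ⟨t, -, t2, t3, -⟩ := Submodule.exists_finset_span_eq_linearIndepOn K (Set.range g)
  have h4 : (AlgebraicIndependent.matroid k L).Indep (Set.range (Sum.elim g z)) :=
    hg.to_subtype_range
  have h3 := (h4.encard_le_eRk_of_subset (X := (AlgebraicIndependent.matroid k L).closure
    (T ∪ t : Finset L)) (by
      rw [← acl_eq]
      rintro _ ⟨i | i, rfl⟩
      swap
      · exact acl_mono (by simp) (hz i)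
      have : g i ∈ Submodule.span K (t : Set L) := t3 ▸ Submodule.subset_span ⟨i, rfl⟩
      rw [Sum.elim_inl]
      generalize g i = x at this
      induction this using Submodule.span_induction with
      | mem x hx => exact sub_acl (by simp [Finset.mem_coe.1 hx])
      | zero => exact zero_mem _
      | add x y _ _ a b => exact add_mem a b
      | smul c x _ a => exact mul_mem (acl_mono (by simp) c.2) a)).trans
    ((Matroid.eRk_closure_eq _ _).trans_le (Matroid.eRk_le_encard _ _))
  replace h3 := hg.injective.encard_range.trans h3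
  rw [Set.encard_coe_eq_coe_finsetCard, ENat.card_eq_coe_fintype_card, Nat.cast_le,
    Fintype.card_sum] at h3
  have := Finset.card_union_le T t
  omega

theorem ex_ind (k ι : Type) [Field k] [Countable k] [Algebra k ℂ] [Countable ι] :
    ∃ g : ι → ℂ, AlgebraicIndependent k g := by
  obtain ⟨s, hs⟩ := exists_isTranscendenceBasis k ℂ
  have h := IsAlgClosed.cardinal_eq_cardinal_transcendence_basis_of_aleph0_lt' _ hs
    Cardinal.mk_le_aleph0 (by rw [Cardinal.mk_complex]; exact Cardinal.aleph0_lt_continuum)
  have : Infinite s := Cardinal.infinite_iff.2 (h ▸ Cardinal.infinite_iff.1 inferInstance)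
  obtain ⟨e, he⟩ := exists_injective_nat ι
  exact ⟨_, hs.1.comp _ ((Infinite.natEmbedding s).injective.comp he)⟩

theorem ctble_adjoin [Countable k] {s : Set L} (h : s.Finite) :
    Countable (IntermediateField.adjoin k s) :=
  Cardinal.mk_le_aleph0_iff.1 ((IntermediateField.cardinalMk_adjoin_le k s).trans (sup_le (sup_le
    Cardinal.mk_le_aleph0 (Cardinal.le_aleph0_iff_set_countable.2 h.countable)) le_rfl))

theorem ext2 [Countable k] [Countable L] [Algebra k ℂ] {a : ℕ} {z : Fin a → L}
    (hz : AlgebraicIndependent k z) (C : Finset ℂ) : ∃ σ : L →ₐ[k] ℂ,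
      AlgebraicIndependent (IntermediateField.adjoin ℚ (C : Set ℂ)) fun i => σ (z i) := by
  obtain ⟨B, h1, h2⟩ := exists_isTranscendenceBasis_superset (R := k) hz.to_subtype_range
  let k' := IntermediateField.adjoin k (C : Set ℂ)
  have : Countable k' := ctble_adjoin C.finite_toSet
  obtain ⟨c, hc⟩ := ex_ind k' B
  let z' : Fin a → B := fun i => ⟨z i, h1 ⟨i, rfl⟩⟩
  have h3 : Function.Injective z' := fun i j e => hz.injective (congrArg Subtype.val e)
  have h6 := hc.restrictScalars (algebraMap k k').injective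
  have := h2.isAlgebraic_field
  obtain ⟨σ, hσ⟩ := IsAlgClosed.surjective_domRestrict_of_isAlgebraic (E := L)
    ((IsFractionRing.liftAlgHom (algebraicIndependent_iff_injective_aeval.2 h6)).comp h2.1.reprField)
  have h4 : (IntermediateField.adjoin ℚ (C : Set ℂ)).toSubfield ≤ k'.toSubfield :=
    IntermediateField.adjoin_le_subfield ℚ _ (by
      rintro _ ⟨q, rfl⟩
      simp) (IntermediateField.subset_adjoin _ _)
  refine ⟨σ, (congrArg (fun v => AlgebraicIndependent _ v) (funext fun i => ?_)).mp
    (AlgebraicIndependent.of_ringHom_of_comp_eq (Subfield.inclusion h4) (RingHom.id ℂ)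
      (x := c ∘ z') (hc.comp z' h3) (RingHom.injective _) rfl)⟩
  have h7 := AlgHom.congr_fun hσ (h2.1.aevalEquivField
    (algebraMap (MvPolynomial B k) _ (X (z' i))))
  simp only [AlgHom.comp_apply, AlgebraicIndependent.reprField] at h7
  change σ (h2.1.aevalEquivField (algebraMap (MvPolynomial B k) _ (X (z' i))) :) = _ at h7
  rw [AlgebraicIndependent.aevalEquivField_algebraMap_apply_coe, aeval_X] at h7
  simp only [IsFractionRing.liftAlgHom_apply] at h7
  refine Eq.trans ?_ h7.symm
  simp

theorem eval_ne {a : ℕ} {z : Fin a → ℂ} {p : MvPolynomial (Fin a) ℂ} (hp : p ≠ 0) {C : Finset ℂ}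
    (hC : p.coeffs ⊆ C) (h : AlgebraicIndependent (IntermediateField.adjoin ℚ (C : Set ℂ)) z) :
    eval z p ≠ 0 := fun e => by
  obtain ⟨q, rfl⟩ := (mem_range_map_iff_coeffs_subset
    (f := algebraMap (IntermediateField.adjoin ℚ (C : Set ℂ)) ℂ) (x := p)).2
    fun w hw => ⟨⟨w, IntermediateField.subset_adjoin _ _ (hC hw)⟩, rfl⟩
  rw [eval_map, ← aeval_def] at e
  exact hp (by rw [algebraicIndependent_iff.1 h q e, map_zero])

/-- The values of the monomials of degree `d`. -/
def vr {n : ℕ} {R : Type} [CommRing R] (d : ℕ) (x : Fin (n + 1) → R)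
    (α : ↥(Finset.univ.finsuppAntidiag d : Finset (Fin (n + 1) →₀ ℕ))) : R := ∏ i, x i ^ α.1 i

/-- A set of points that is dense over a coordinate subspace. -/
def Dn {n : ℕ} (W : Set (Fin (n + 1) → ℂ)) (a : ℕ) : Prop :=
  ∃ (i : Fin (n + 1)) (I : Fin a → Fin (n + 1)), ∀ C : Finset ℂ, ∃ x ∈ W, x i = 1 ∧
    AlgebraicIndependent (IntermediateField.adjoin ℚ (C : Set ℂ)) fun t => x (I t)

theorem dense [Countable k] [Algebra k ℂ] {n d a : ℕ} {ρ : Type} [Fintype ρ]
    (u : ρ → Fin (n + 1) → k) {x : Fin (n + 1) → L} {i : Fin (n + 1)} (h1 : x i = 1)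
    {I : Fin a → Fin (n + 1)} (h2 : AlgebraicIndependent k fun t => x (I t))
    (h3 : vr d x ∈ Submodule.span L (Set.range fun r => vr d fun i => algebraMap k L (u r i))) :
    Dn {x | vr d x ∈ Submodule.span ℂ (Set.range fun r => vr d fun i => algebraMap k ℂ (u r i))}
      a := by
  obtain ⟨l, hl⟩ := (Submodule.mem_span_range_iff_exists_fun L).1 h3
  let E := IntermediateField.adjoin k (Set.range x ∪ Set.range l)
  have : Countable E := ctble_adjoin ((Set.finite_range x).union (Set.finite_range l))
  let x' : Fin (n + 1) → E := fun i =>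
    ⟨x i, IntermediateField.subset_adjoin _ _ (Or.inl ⟨i, rfl⟩)⟩
  let l' : ρ → E := fun i => ⟨l i, IntermediateField.subset_adjoin _ _ (Or.inr ⟨i, rfl⟩)⟩
  refine ⟨i, I, fun C => ?_⟩
  have h4 : AlgebraicIndependent k fun t => x' (I t) :=
    AlgebraicIndependent.of_comp E.val (x := fun t => x' (I t)) h2
  obtain ⟨σ, hσ⟩ := ext2 h4 C
  refine ⟨fun i => σ (x' i), (Submodule.mem_span_range_iff_exists_fun ℂ).2
    ⟨fun r => σ (l' r), funext fun α => ?_⟩, ?_, hσ⟩
  · have h5 : ∑ r, l' r * ∏ i, algebraMap k E (u r i) ^ α.1 i = ∏ i, x' i ^ α.1 i := by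
      apply E.val.injective
      simp only [AlgHom.toRingHom_eq_coe, RingHom.coe_coe, map_sum, map_mul, map_prod, map_pow,
        AlgHom.commutes]
      have := congrFun hl α
      simp only [Finset.sum_apply, Pi.smul_apply, smul_eq_mul, vr] at this
      exact this
    have h6 := congrArg σ h5
    simp only [map_sum, map_mul, map_prod, map_pow, AlgHom.commutes] at h6
    simpa only [Finset.sum_apply, Pi.smul_apply, smul_eq_mul, vr] using h6
  · exact (congrArg σ (show x' i = 1 from Subtype.ext h1)).trans (map_one σ)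

end Pool.Agent.Lib.LI11
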