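import Pool.Agent.Lib.LI11.H

/-! Counting conditions on general forms. -/

open MvPolynomial Module Filter Pool.Agent.Lib.MP_08f962_ag Pool.Agent.Lib.CLF

noncomputable section

namespace Pool.Agent.Lib.LI11

/-- Exponents of given bidegree. -/
abbrev Ix (n m : ℕ) (p : ℕ × ℕ) : Type :=
  {α : Fin (n + 1) ⊕ Fin (m + 1) →₀ ℕ // Finsupp.weight (wt n m) α = p}

variable {n m : ℕ} {K J : Type} [Field K]

theorem pd'_pd {ι : Type} {x : J → Fin (n + 1) → K} (h : PD' x) {j : ι → J}
    (hj : Function.Injective j) : PD fun k => x (j k) :=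
  ⟨fun _ => h.1 _, fun k l c e => hj (h.2 _ _ fun i i' => by
    simp only [e, Pi.smul_apply, smul_eq_mul]
    ring)⟩

theorem greedy [CharZero K] {U : Ultrafilter J} {ξ : J → K}
    (hb : ∀ C : Set K, C.Countable → ∀ᶠ j in U, ξ j ∉ C) {ι : Type} [Finite ι] {g : ι → K}
    (hg : AlgebraicIndependent ℚ g) {s : Set J} (hs : s ∈ U) (r : ℕ) : ∃ j : Fin r → J,
      (∀ k, j k ∈ s) ∧ AlgebraicIndependent ℚ (Sum.elim g fun k => ξ (j k)) := by
  induction r with
  | zero =>
    refine ⟨Fin.elim0, fun k => k.elim0, ?_⟩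
    have := hg.comp (Sum.elim id Fin.elim0 : ι ⊕ Fin 0 → ι) (by
      rintro (i | i) (j | j)
      exacts [by simp, j.elim0, i.elim0, i.elim0])
    refine (congrArg (fun v => AlgebraicIndependent ℚ v) (funext ?_)).mp this
    rintro (i | i)
    exacts [rfl, i.elim0]
  | succ r ih =>
    obtain ⟨j, j1, j2⟩ := ih
    obtain ⟨j', e1, e2⟩ := (Eventually.and (f := (U : Filter J)) hs
      (hb _ (ctble (Sum.elim g fun k => ξ (j k))))).exists
    exact ⟨Fin.cons j' j, Fin.cases e1 j1, (congrArg (fun z => AlgebraicIndependent ℚ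
      (Sum.elim g z)) (funext (Fin.cases rfl fun _ => rfl))).mp (ind_cons j2 e2)⟩

theorem pt_sum [Algebra ℂ K] {p : ℕ × ℕ} [Fintype (Ix n m p)]
    {G : S n m} (hG : G ∈ Forms n m p) (x : Fin (n + 1) → K) (y : Fin (m + 1) → K) :
    pt x y G = ∑ α : (Ix n m p),
      (∏ i, Sum.elim x y i ^ α.1 i) * algebraMap ℂ K (G.coeff α.1) := by
  have hH : IsWeightedHomogeneous (wt n m) (map (algebraMap ℂ K) G) p := fun α h =>
    hG fun h' => h (by rw [coeff_map, h', map_zero])
  have := GRID.eval_eq_sum hH (Sum.elim x y)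
  rw [eval_map, ← aeval_def] at this
  simp only [coeff_map] at this
  exact this

theorem sum_eval {κ : Type} [Fintype κ] {p : ℕ × ℕ} [Fintype (Ix n m p)]
    {z : κ → Fin (n + 1) ⊕ Fin (m + 1) → K} {c : κ → K}
    (h : ∀ α : (Ix n m p), ∑ l, c l * ∏ i, z l i ^ α.1 i = 0)
    {H : MvPolynomial _ K} (hH : IsWeightedHomogeneous (wt n m) H p) :
    ∑ l, c l * eval (z l) H = 0 := by
  simp only [GRID.eval_eq_sum hH, Finset.mul_sum]
  rw [Finset.sum_comm]
  refine Finset.sum_eq_zero fun α _ => ?_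
  simp only [← mul_assoc, ← Finset.sum_mul, h α, zero_mul]

theorem wide [Algebra ℂ K] [CharZero K] {a D : ℕ} {x : J → Fin (n + 1) → K} (hx : PD' x)
    {U : Ultrafilter J} {i0 i1 : Fin (n + 1)} (ha : ∀ᶠ j in U, x j i0 ≠ 0)
    (hb : ∀ C : Set K, C.Countable → ∀ᶠ j in U, (x j i0)⁻¹ * x j i1 ∉ C)
    {h : Fin a → S n m} (hh : ∀ i, h i ∈ Forms n m (D, 0))
    (hi : AlgebraicIndependent ℚ fun p : Fin a × (Ix n m (D, 0)) =>
      (h p.1).coeff p.2.1) (h0 : ∀ᶠ j in U, ∀ i, pt (x j) 0 (h i) = 0)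
    {k : Type} [Field k] [Algebra k K] (T0 : Finset K) (hT : T0.card ≤ D)
    (hk : ∀ c, algebraMap k K c ∈ acl ℚ (T0 : Set K)) {s : Set J} (hs : s ∈ U) :
    ∃ j ∈ s, x j i0 ≠ 0 ∧ ∃ I : Fin (a + 1) → Fin (n + 1),
      AlgebraicIndependent k fun t => ((x j i0)⁻¹ • x j) (I t) := by
  classical
  by_contra! hc
  have : Fintype (Ix n m (D, 0)) := (finite_wt (D, 0)).fintype
  obtain ⟨j, j1, j2⟩ := greedy hb
    (hi.map' (f := (algebraMap ℂ K).toRatAlgHom) (algebraMap ℂ K).injective)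
    (inter_mem (f := (U : Filter J)) hs (ha.and h0)) (D + 1)
  have j3 : Function.Injective j := fun k l e =>
    Sum.inr_injective (j2.injective (show _ = _ by simp [e]))
  let Y := fun l => (x (j l) i0)⁻¹ • x (j l)
  have hY : PD Y := ⟨fun l => smul_ne_zero (inv_ne_zero (j1 l).2.1) (hx.1 _), fun k l c e =>
    (pd'_pd hx j3).2 k l (x (j k) i0 * (c * (x (j l) i0)⁻¹)) (by
      rw [mul_smul, mul_smul]
      exact (inv_smul_eq_iff₀ (j1 k).2.1).1 e)⟩
  have h1 : ∀ l, ∃ B : Finset K, B.card ≤ a ∧ ∀ i, Y l i ∈ acl k (B : Set K) := fun l => by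
    obtain ⟨B, hB⟩ := (AlgebraicIndependent.matroid k K).exists_isBasis (Set.range (Y l))
      (Set.subset_univ _)
    lift B to Finset K using (Set.finite_range _).subset hB.subset
    refine ⟨B, not_lt.1 fun h2 => ?_, fun i => ?_⟩
    · obtain ⟨e⟩ : Nonempty (Fin (a + 1) ↪ B) := Function.Embedding.nonempty_of_card_le (by simpa)
      choose I hI using fun t => hB.subset (e t).2
      exact hc _ (j1 l).1 (j1 l).2.1 I ((congrArg (fun v => AlgebraicIndependent k v)
        (funext fun t => (hI t).symm)).mp (AlgebraicIndependent.comp hB.indep e e.injective))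
    · rw [← SetLike.mem_coe, acl_eq]
      exact hB.subset_closure ⟨i, rfl⟩
  choose B b1 b2 using h1
  have h2 : ∀ l i, Y l i ∈ acl ℚ ((T0 ∪ Finset.univ.biUnion B : Finset K) : Set K) := fun l i =>
    acl_trans (fun c => acl_mono (by simp) (hk c)) (fun x hx => sub_acl (by
      simpa using Or.inr ⟨l, hx⟩)) (b2 l i)
  have key := trd' (κ := Fin a × Fin (D + 1)) (T0 ∪ Finset.univ.biUnion B) _ _
    (fun q p => if p.1 = q.1 then ∏ i, Sum.elim (Y q.2) 0 i ^ p.2.1 i else 0) j2
    (fun l => h2 l i1) (fun q p => ?_) ?_ fun q => ?_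
  · have a1 := Finset.card_union_le T0 (Finset.univ.biUnion B)
    have a2 := Finset.card_biUnion_le_card_mul Finset.univ B a fun l _ => b1 l
    simp only [Fintype.card_prod, Fintype.card_fin, Finset.card_univ] at key a2
    rw [mul_comm] at a2
    omega
  · split_ifs
    · refine prod_mem fun i _ => pow_mem ?_ _
      rcases i with i | i
      exacts [h2 _ i, zero_mem _]
    · exact zero_mem _
  · rw [Fintype.linearIndependent_iff]
    intro γ hγ q
    obtain ⟨H, a1, a2⟩ := GRID.sep (w := wt n m) Sum.inl (fun _ => rfl) hY le_rfl q.2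
    have := sum_eval (z := fun l => Sum.elim (Y l) 0) (c := fun l => γ (q.1, l)) (p := (D, 0))
      (fun α => by
        have := congrFun hγ (q.1, α)
        simp only [Finset.sum_apply, Pi.smul_apply, smul_eq_mul, Pi.zero_apply, mul_ite, mul_zero,
          Fintype.sum_prod_type] at this
        rwa [Finset.sum_eq_single q.1 (fun i _ hi => by simp [hi.symm]) (by simp),
          Finset.sum_congr rfl fun _ _ => if_pos rfl] at this) (H := H) (by simpa using a1)
    rw [Finset.sum_eq_single q.2 (fun l _ hl => by rw [(a2 _ l fun _ => rfl).2 hl, mul_zero])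
      (by simp)] at this
    exact (mul_eq_zero.1 this).resolve_right fun h => (a2 _ q.2 fun _ => rfl).1 h rfl
  · have := NG.scale (x (j q.2)) 0 (x (j q.2) i0)⁻¹ 1 (hh q.1)
    rw [(j1 q.2).2.2, mul_zero, smul_zero, pt_sum (hh q.1)] at this
    rw [Fintype.sum_prod_type, Finset.sum_eq_single q.1 (fun i _ hi => by simp [hi]) (by simp),
      ← this]
    exact Finset.sum_congr rfl fun α _ => by rw [if_pos rfl]; rfl

omit [Field K] in
theorem pick {U : Ultrafilter J} {ξ : J → K}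
    (hb : ∀ C : Set K, C.Countable → ∀ᶠ j in U, ξ j ∉ C) {s : Set J} (hs : s ∈ U) (r : ℕ) :
    ∃ j : Fin r → J, Function.Injective j ∧ ∀ k, j k ∈ s := by
  have h : s.Infinite := fun h => by
    obtain ⟨j, h1, h2⟩ := (Eventually.and (f := (U : Filter J)) hs
      (hb _ (h.image ξ).countable)).exists
    exact h2 ⟨j, h1, rfl⟩
  exact ⟨fun k => h.natEmbedding s k, fun k l e =>
    Fin.ext ((h.natEmbedding s).injective (Subtype.ext e)), fun k => Subtype.prop _⟩

/-- A single form that replaces finitely many. -/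
theorem one_form {ι : Type} [Fintype ι] (f : ι → S n m) (p : ι → ℕ × ℕ)
    (hf : ∀ i, f i ∈ Forms n m (p i)) : ∃ (G : S n m) (u v : ℕ), n + m ≤ u ∧ n + m ≤ v ∧
      G ∈ Forms n m (u, v) ∧ G ∈ Ideal.span (Set.range f) ∧
      ∀ (K : Type) [Field K] [Algebra ℂ K] (x : Fin (n + m + 1) → Fin (n + 1) → K)
        (y : Fin (n + m + 1) → Fin (m + 1) → K) (i : ι), PD x → PD y →
        (∀ k l, pt (x k) (y l) G = 0) → ∃ k l, pt (x k) (y l) (f i) = 0 := by
  classical
  let u := ∑ i, (p i).1 + (n + m)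
  let v := ∑ i, (p i).2 + (n + m)
  let q : ι → ℕ × ℕ := fun i => (u - (p i).1, v - (p i).2)
  have h1 : ∀ i, (p i).1 ≤ ∑ i, (p i).1 ∧ (p i).2 ≤ ∑ i, (p i).2 := fun i =>
    ⟨Finset.single_le_sum (f := fun i => (p i).1) (fun _ _ => Nat.zero_le _) (Finset.mem_univ i),
      Finset.single_le_sum (f := fun i => (p i).2) (fun _ _ => Nat.zero_le _) (Finset.mem_univ i)⟩
  have : ∀ i, Fintype (Ix n m (q i)) := fun i => (finite_wt (q i)).fintype
  let k := IntermediateField.adjoin ℚ (⋃ i, ((f i).coeffs : Set ℂ))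
  have : Countable k := ctble_adjoin (Set.finite_iUnion fun i => Finset.finite_toSet _)
  obtain ⟨μ, hμ⟩ := ex_ind k (Σ i, (Ix n m (q i)))
  let M : ι → S n m := fun i => ∑ α, monomial α.1 (μ ⟨i, α⟩)
  have h2 : ∀ i, M i ∈ Forms n m (q i) := fun i =>
    Submodule.sum_mem _ fun α _ => isWeightedHomogeneous_monomial _ _ _ α.2
  have hG : ∑ i, f i * M i ∈ Forms n m (u, v) := Submodule.sum_mem _ fun i _ => by
    have := mul_mem_forms (hf i) (h2 i)
    rwa [show p i + q i = (u, v) from Prod.ext (Nat.add_sub_cancel' ((h1 i).1.trans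
      (Nat.le_add_right _ _))) (Nat.add_sub_cancel' ((h1 i).2.trans (Nat.le_add_right _ _)))] at this
  refine ⟨∑ i, f i * M i, u, v, Nat.le_add_left _ _, Nat.le_add_left _ _, hG, sum_mem fun i _ =>
      Ideal.mul_mem_right _ _ (Ideal.subset_span ⟨i, rfl⟩), fun K _ _ x y i hx hy h0 => ?_⟩
  by_contra! hc
  obtain ⟨a, T, a1, a2, a3⟩ := NG.nrm x hx
  obtain ⟨b, T', b1, b2, b3⟩ := NG.nrm y hy
  have a0 : ∀ l, a l ≠ 0 := fun l e => a1.1 l (by simp [e])
  have b0 : ∀ l, b l ≠ 0 := fun l e => b1.1 l (by simp [e])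
  have h3 : ∀ (l : _ × _) i, Sum.elim (a l.1 • x l.1) (b l.2 • y l.2) i ∈
      acl k ((T ∪ T' : Finset K) : Set K) := by
    rintro l (i | i)
    · exact Subfield.closure_le.2 (fun _ h => sub_acl (by simp [Finset.mem_coe.1 h])) (a3 _ i)
    · exact Subfield.closure_le.2 (fun _ h => sub_acl (by simp [Finset.mem_coe.1 h])) (b3 _ i)
  have key := trd' (k := k) (ι' := Fin 0) (T ∪ T') (fun s => algebraMap ℂ K (μ s)) Fin.elim0
    (fun (l : _ × _) s => pt (a l.1 • x l.1) (b l.2 • y l.2) (f s.1) *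
      ∏ i, Sum.elim (a l.1 • x l.1) (b l.2 • y l.2) i ^ s.2.1 i) ?_ (fun i => i.elim0)
    (fun l s => mul_mem ?_ (prod_mem fun i _ => pow_mem (h3 l i) _)) ?_ fun l => ?_
  · have := Finset.card_union_le T T'
    simp only [Fintype.card_prod, Fintype.card_fin] at key
    nlinarith
  · have := (hμ.map' (f := IsScalarTower.toAlgHom k ℂ K) (algebraMap ℂ K).injective).comp
      (Sum.elim id Fin.elim0 : _ ⊕ Fin 0 → _) (by
        rintro (i | i) (j | j)
        exacts [by simp, j.elim0, i.elim0, i.elim0])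
    refine (congrArg (fun v => AlgebraicIndependent k v) (funext ?_)).mp this
    rintro (i | i)
    exacts [rfl, i.elim0]
  · rw [pt, aeval_def, eval₂_eq']
    exact sum_mem fun γ hγ => mul_mem (base_acl _ (⟨_, IntermediateField.subset_adjoin _ _
      (Set.mem_iUnion.2 ⟨s.1, coeff_mem_coeffs γ (mem_support_iff.1 hγ)⟩)⟩ : k))
      (prod_mem fun i _ => pow_mem (h3 l i) _)
  · rw [Fintype.linearIndependent_iff]
    intro γ hγ l
    have := h1 i
    obtain ⟨H₁, c1, c2⟩ := GRID.sep (w := wt n m) (u := (q i).1) Sum.inl (fun _ => rfl) a1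
      (by simp only [q, u]; omega) l.1
    obtain ⟨H₂, d1, d2⟩ := GRID.sep (w := wt n m) (u := (q i).2) Sum.inr (fun _ => rfl) b1
      (by simp only [q, v]; omega) l.2
    have := sum_eval (z := fun l : _ × _ => Sum.elim (a l.1 • x l.1) (b l.2 • y l.2)) (p := q i)
      (c := fun l => γ l * pt (a l.1 • x l.1) (b l.2 • y l.2) (f i)) (fun α => by
        simpa only [Finset.sum_apply, Pi.smul_apply, smul_eq_mul, Pi.zero_apply, mul_assoc] using
          congrFun hγ ⟨i, α⟩) (H := H₁ * H₂) (by simpa [wt] using c1.mul d1)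
    rw [Finset.sum_eq_single l (fun l' _ hl => ?_) (by simp), map_mul] at this
    · refine (mul_eq_zero.1 ((mul_eq_zero.1 this).resolve_right (mul_ne_zero
        (fun h => (c2 _ l.1 fun _ => rfl).1 h rfl) fun h =>
          (d2 _ l.2 fun _ => rfl).1 h rfl))).resolve_right ?_
      rw [NG.scale _ _ _ _ (hf i)]
      exact mul_ne_zero (mul_ne_zero (pow_ne_zero _ (a0 _)) (pow_ne_zero _ (b0 _))) (hc _ _)
    · rw [map_mul]
      by_cases h : l'.1 = l.1
      · rw [(d2 _ l'.2 fun _ => rfl).2 fun h' => hl (Prod.ext h h'), mul_zero, mul_zero]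
      · rw [(c2 _ l'.1 fun _ => rfl).2 h, zero_mul, mul_zero]
  · have := NG.scale (x l.1) (y l.2) (a l.1) (b l.2) hG
    rw [h0, mul_zero, map_sum] at this
    rw [Fintype.sum_sigma, ← this]
    refine Finset.sum_congr rfl fun i _ => ?_
    simp only [M, map_mul, map_sum, Finset.mul_sum]
    refine Finset.sum_congr rfl fun α _ => ?_
    rw [pt, aeval_monomial, Finsupp.prod_fintype _ _ (by simp)]
    ring

end Pool.Agent.Lib.LI11
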