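import Pool.Agent.Lib.LI11.I

/-! The class of a product. -/

open MvPolynomial Module Filter Pool.Agent.Lib.MP_08f962_ag Pool.Agent.Lib.CLF

noncomputable section

namespace Pool.Agent.Lib.LI11

variable {n m : ℕ}

theorem Dn.ultra {W : Set (Fin (n + 1) → ℂ)} {a : ℕ} (h : Dn W a) :
    ∃ (i : Fin (n + 1)) (I : Fin a → Fin (n + 1)) (U : Ultrafilter (Fin (n + 1) → ℂ)),
      (∀ᶠ x : Fin (n + 1) → ℂ in U, x ∈ W ∧ x i = 1) ∧
      ∀ p : MvPolynomial (Fin a) ℂ, p ≠ 0 →
        ∀ᶠ x : Fin (n + 1) → ℂ in U, eval (fun t => x (I t)) p ≠ 0 := by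
  obtain ⟨i, I, h⟩ := h
  let f := fun p : {p : MvPolynomial (Fin a) ℂ // p ≠ 0} =>
    𝓟 {x | x ∈ W ∧ x i = 1 ∧ eval (fun t => x (I t)) p.1 ≠ 0}
  have : NeBot (iInf f) := iInf_neBot_of_directed (fun p q => ⟨⟨p.1 * q.1, mul_ne_zero p.2 q.2⟩,
      principal_mono.2 fun x hx => ⟨hx.1, hx.2.1, fun e => hx.2.2 (by simp [e])⟩,
      principal_mono.2 fun x hx => ⟨hx.1, hx.2.1, fun e => hx.2.2 (by simp [e])⟩⟩)
    fun p => principal_neBot_iff.2 ((h p.1.coeffs).imp fun x hx =>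
      ⟨hx.1, hx.2.1, eval_ne p.2 subset_rfl hx.2.2⟩)
  have h1 : ∀ p : {p : MvPolynomial (Fin a) ℂ // p ≠ 0},
      ∀ᶠ x : Fin (n + 1) → ℂ in Ultrafilter.of (iInf f),
      x ∈ W ∧ x i = 1 ∧ eval (fun t => x (I t)) p.1 ≠ 0 := fun p =>
    (Ultrafilter.of_le _).trans (iInf_le f p) (mem_principal_self _)
  exact ⟨i, I, _, (h1 ⟨1, one_ne_zero⟩).mono fun x hx => ⟨hx.1, hx.2.1⟩,
    fun p hp => (h1 ⟨p, hp⟩).mono fun x hx => hx.2.2⟩

variable {L : Type} [Field L] [Algebra ℂ L]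

theorem fin_pow (x : Fin (n + 1) → L) (s : ℕ) :
    FiniteDimensional ℂ (Submodule.span ℂ (Set.range x) ^ s : Submodule ℂ L) :=
  Module.Finite.iff_fg.2 ((Submodule.fg_span (Set.finite_range x)).pow s)

theorem low {x : Fin (n + 1) → L} {i : Fin (n + 1)} (h1 : x i = 1) {a : ℕ}
    {I : Fin a → Fin (n + 1)} (h2 : AlgebraicIndependent ℂ fun t => x (I t)) (s : ℕ) :
    (s + 1) ^ a ≤ finrank ℂ (Submodule.span ℂ (Set.range x) ^ (a * s) : Submodule ℂ L) := by
  have := fin_pow x (a * s)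
  have h3 := (((basisMonomials (Fin a) ℂ).linearIndependent.map' (aeval fun t => x (I t)).toLinearMap
    (LinearMap.ker_eq_bot.2 h2)).comp (fun β : Fin a → Fin (s + 1) =>
      Finsupp.equivFunOnFinite.symm fun t => (β t : ℕ)) fun β γ e => funext fun t =>
        Fin.ext (congrFun (Finsupp.equivFunOnFinite.symm.injective e) t))
  have h4 := finrank_span_eq_card h3
  rw [Fintype.card_fun, Fintype.card_fin, Fintype.card_fin] at h4
  refine h4.ge.trans (Submodule.finrank_mono (Submodule.span_le.2 ?_))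
  rintro _ ⟨β, rfl⟩
  simp only [Function.comp_apply, coe_basisMonomials, AlgHom.toLinearMap_apply, aeval_monomial,
    map_one, one_mul]
  rw [Finsupp.prod_fintype _ _ (by simp)]
  refine (pow_le_pow_left' (Submodule.span_mono (Set.range_comp_subset_range I x)) _).trans
    (pow_le_pow_right' (Submodule.one_le.2 (Submodule.subset_span
      (show 1 ∈ Set.range x from ⟨i, h1⟩))) ?_)
    (HV.prod_mem_pow (fun t => x (I t)) _ _)
  simpa using Finset.sum_le_card_nsmul Finset.univ (fun t => (β t : ℕ)) s fun t _ =>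
    Nat.le_of_lt_succ (β t).2

theorem ex_poly {f : ℕ → ℕ} {q : MvPolynomial (Fin 2) ℝ} {u : Fin 2 → Polynomial ℝ} {c : ℝ}
    (hc : c ≠ 0) (h : ∀ᶠ s : ℕ in atTop, (f s : ℝ) * c = eval (fun i => (u i).eval (s : ℝ)) q)
    {a : ℕ} (h1 : ∀ s, (s + 1) ^ (a + 1) ≤ f ((a + 1) * s)) : ∃ φ : Polynomial ℝ,
      a + 1 ≤ φ.natDegree ∧ ∀ᶠ s : ℕ in atTop, (f s : ℝ) = φ.eval (s : ℝ) := by
  have h2 : ∀ᶠ s : ℕ in atTop, (f s : ℝ) = (aeval u q * Polynomial.C c⁻¹).eval (s : ℝ) :=
    h.mono fun s hs => by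
      have : (aeval u q).eval (s : ℝ) = eval (fun i => (u i).eval (s : ℝ)) q :=
        AlgHom.congr_fun (comp_aeval u (Polynomial.aeval (s : ℝ))) q
      rw [Polynomial.eval_mul, this, ← hs, Polynomial.eval_C, mul_inv_cancel_right₀ hc]
  refine ⟨_, ?_, h2⟩
  generalize aeval u q * Polynomial.C c⁻¹ = φ at h2
  have h3 := natDegree_le_of_ev (p := (Polynomial.X + Polynomial.C 1) ^ (a + 1))
    (q := φ.comp (Polynomial.C ((a + 1 : ℕ) : ℝ) * Polynomial.X)) (k := φ.natDegree)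
    (Polynomial.natDegree_comp_le.trans ((Nat.mul_le_mul_left _ ((Polynomial.natDegree_C_mul_le _
      _).trans Polynomial.natDegree_X_le)).trans_eq (mul_one _)))
    (Eventually.of_forall fun t => by simp; positivity)
    (((tendsto_id.const_mul_atTop' a.succ_pos).eventually h2).mono fun t ht => by
      simp only [Polynomial.eval_comp, Polynomial.eval_mul, Polynomial.eval_C, Polynomial.eval_X,
        Polynomial.eval_pow, Polynomial.eval_add]
      rw [← Nat.cast_mul]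
      exact le_of_le_of_eq (by exact_mod_cast h1 t) ht)
  rwa [Polynomial.natDegree_pow, Polynomial.natDegree_X_add_C, mul_one] at h3

theorem cl_prod {I : Ideal (S n m)} {φ ψ : Polynomial ℝ} (h : ∀ᶠ p : ℕ × ℕ in atTop,
    (hf I p : ℝ) = φ.eval (p.1 : ℝ) * ψ.eval (p.2 : ℝ)) : Cl I (φ.natDegree + ψ.natDegree)
      (Pi.single (φ.natDegree, ψ.natDegree) ((φ.natDegree.factorial * ψ.natDegree.factorial : ℕ) *
        (φ.leadingCoeff * ψ.leadingCoeff))) := by
  refine ⟨∑ i ∈ Finset.range (φ.natDegree + 1), ∑ j ∈ Finset.range (ψ.natDegree + 1),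
    monomial (Finsupp.single 0 i + Finsupp.single 1 j) (φ.coeff i * ψ.coeff j),
    totalDegree_finsetSum_le fun i hi => totalDegree_finsetSum_le fun j hj =>
      (totalDegree_monomial_le _ _).trans ?_, h.mono fun p hp => ?_, fun a b => ?_⟩
  · rw [Finsupp.sum_fintype _ _ (by simp), Fin.sum_univ_two]
    simpa using add_le_add (Nat.le_of_lt_succ (Finset.mem_range.1 hi))
      (Nat.le_of_lt_succ (Finset.mem_range.1 hj))
  · rw [hp, Polynomial.eval_eq_sum_range, Polynomial.eval_eq_sum_range, Finset.sum_mul_sum]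
    simp only [map_sum, eval_monomial]
    refine Finset.sum_congr rfl fun i _ => Finset.sum_congr rfl fun j _ => ?_
    rw [Finsupp.prod_fintype _ _ (by simp), Fin.prod_univ_two]
    simp only [Finsupp.coe_add, Pi.add_apply, Finsupp.single_eq_same, Matrix.cons_val_zero,
      Matrix.cons_val_one, ne_eq, zero_ne_one, one_ne_zero, not_false_eq_true,
      Finsupp.single_eq_of_ne, add_zero, zero_add]
    ring
  · have e : ∀ i j : ℕ, (Finsupp.single 0 i + Finsupp.single 1 j : Fin 2 →₀ ℕ) =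
        Finsupp.single 0 a + Finsupp.single 1 b ↔ j = b ∧ i = a := fun i j =>
      ⟨fun h => ⟨by simpa using DFunLike.congr_fun h 1, by simpa using DFunLike.congr_fun h 0⟩,
        fun h => by rw [h.1, h.2]⟩
    simp only [coeff_sum, coeff_monomial, e, ite_and, Finset.sum_ite_eq', Finset.mem_range,
      Finset.sum_ite_irrel, Finset.sum_const_zero, Pi.single_apply, Prod.mk.injEq]
    by_cases h1 : a = φ.natDegree <;> by_cases h2 : b = ψ.natDegree
    · simp [h1, h2]
    all_goals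
      simp only [h1, h2, if_true, if_false]
      split_ifs <;> first | rfl | omega | simp

theorem ld {L' Λ : Type} [Field L'] [Algebra ℂ L'] [Algebra L L'] [IsScalarTower ℂ L L']
    {U : Ultrafilter Λ} {π : (Λ → L) →ₐ[L] L'} (hπ : ∀ f, π f = 0 ↔ ∀ᶠ i in U, f i = 0)
    (A B : Submodule ℂ L') [FiniteDimensional ℂ A] [FiniteDimensional ℂ B]
    (hA : ∀ z ∈ A, ∃ w, algebraMap L L' w = z)
    (hB : ∀ z ∈ B, ∃ w : Λ → ℂ, π (fun l => algebraMap ℂ L (w l)) = z) :
    finrank ℂ (A * B : Submodule ℂ L') = finrank ℂ A * finrank ℂ B := by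
  have sp : ∀ (A : Submodule ℂ L') [FiniteDimensional ℂ A], ∃ u : Fin (finrank ℂ A) → L',
      LinearIndependent ℂ u ∧ Submodule.span ℂ (Set.range u) = A := fun A _ =>
    ⟨_, (finBasis ℂ A).linearIndependent.map' A.subtype A.ker_subtype, by
      rw [Set.range_comp, Submodule.span_image, Basis.span_eq, Submodule.map_subtype_top]⟩
  obtain ⟨u, u1, u2⟩ := sp A
  obtain ⟨w, w1, w2⟩ := sp B
  choose u' hu using fun i => hA (u i) (u2 ▸ Submodule.subset_span ⟨i, rfl⟩)
  choose w' hw using fun i => hB (w i) (w2 ▸ Submodule.subset_span ⟨i, rfl⟩)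
  have h1 : A * B = Submodule.span ℂ (Set.range fun p : _ × _ => u p.1 * w p.2) := by
    conv_lhs => rw [← u2, ← w2, Submodule.span_mul_span]
    congr 1
    ext z
    simp only [Set.mem_mul, Set.mem_range, exists_exists_eq_and, Prod.exists]
  rw [h1, finrank_span_eq_card, Fintype.card_prod, Fintype.card_fin, Fintype.card_fin]
  rw [Fintype.linearIndependent_iff] at u1 w1 ⊢
  intro c hc p
  have h2 : π (fun l => ∑ i, (∑ j, c (i, j) * w' j l) • u' i) = 0 := by
    rw [← hc, Fintype.sum_prod_type, show (fun l => ∑ i, (∑ j, c (i, j) * w' j l) • u' i) =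
      ∑ i, ∑ j, (c (i, j) • u' i) • fun l => algebraMap ℂ L (w' j l) from funext fun l => by
        simp only [Finset.sum_apply, Finset.sum_smul, Pi.smul_apply, smul_eq_mul]
        exact Finset.sum_congr rfl fun _ _ => Finset.sum_congr rfl fun _ _ => by
          simp only [Algebra.smul_def, map_mul]; ring]
    simp only [map_sum, map_smul, hw]
    simp only [smul_assoc, ← hu, Algebra.smul_def (A := L') (u' _)]
  refine w1 (fun j => c (p.1, j)) ?_ p.2
  have h3 : π (∑ j, algebraMap ℂ L (c (p.1, j)) • fun l => algebraMap ℂ L (w' j l)) = 0 :=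
    (hπ _).2 (((hπ _).1 h2).mono fun l hl => by
      have := u1 (fun i => ∑ j, c (i, j) * w' j l) (by
        have := congrArg (IsScalarTower.toAlgHom ℂ L L') hl
        simpa only [map_sum, map_smul, map_zero, IsScalarTower.toAlgHom_apply, hu] using this) p.1
      simpa only [Finset.sum_apply, Pi.smul_apply, smul_eq_mul, map_sum, map_mul, map_zero] using
        congrArg (algebraMap ℂ L) this)
  simp only [map_sum, map_smul, hw] at h3
  simpa only [algebraMap_smul] using h3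

theorem prod_class {F : S n m} {p : ℕ × ℕ} (hF : F ∈ Forms n m p) {W : Set (Fin (n + 1) → ℂ)}
    {W' : Set (Fin (m + 1) → ℂ)} {a b : ℕ} (hW : Dn W (a + 1)) (hW' : Dn W' (b + 1))
    (h0 : ∀ x ∈ W, ∀ y ∈ W', pt x y F = 0) :
    ∃ t : ℝ, 0 < t ∧ Pi.single (a + 1, b + 1) t ∈ Cn (Ideal.span {F}) (a + b + 2) := by
  obtain ⟨i, I, U, a1, a2⟩ := hW.ultra
  obtain ⟨i', I', U', b1, b2⟩ := hW'.ultra
  obtain ⟨L, _, _, -, π, hπ⟩ := ult ℂ _ U
  obtain ⟨L', _, _, -, π', hπ'⟩ := ult L _ U'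
  let _ : Algebra ℂ L' := ((algebraMap L L').comp (algebraMap ℂ L)).toAlgebra
  have : IsScalarTower ℂ L L' := IsScalarTower.of_algebraMap_eq fun _ => rfl
  let ι := (IsScalarTower.toAlgHom ℂ L L').comp π
  let ι' : ((Fin (m + 1) → ℂ) → ℂ) →ₐ[ℂ] L' := (π'.restrictScalars ℂ).comp
    (AlgHom.pi fun l => (Algebra.ofId ℂ L).comp (Pi.evalAlgHom ℂ _ l))
  have c1 : ∀ f, ι f = 0 ↔ ∀ᶠ i in U, f i = 0 := fun f => (map_eq_zero_iff _
    (algebraMap L L').injective).trans (hπ f)
  have c2 : ∀ f, ι' f = 0 ↔ ∀ᶠ i in U', f i = 0 := fun f => (hπ' _).trans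
    (eventually_congr (Eventually.of_forall fun l => map_eq_zero_iff _ (algebraMap ℂ L).injective))
  have gen : ∀ {n a : ℕ} {U : Ultrafilter (Fin (n + 1) → ℂ)}
      {ι : ((Fin (n + 1) → ℂ) → ℂ) →ₐ[ℂ] L'}
      {I : Fin (a + 1) → Fin (n + 1)} {i : Fin (n + 1)}, (∀ f, ι f = 0 ↔ ∀ᶠ i in U, f i = 0) →
      (∀ᶠ x : Fin (n + 1) → ℂ in U, x i = 1) → (∀ p : MvPolynomial (Fin (a + 1)) ℂ, p ≠ 0 →
        ∀ᶠ x : Fin (n + 1) → ℂ in U, eval (fun t => x (I t)) p ≠ 0) → ∀ s, (s + 1) ^ (a + 1) ≤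
      finrank ℂ (Submodule.span ℂ (Set.range fun j => ι fun x => x j) ^ ((a + 1) * s) :
        Submodule ℂ L') ∧ finrank ℂ (Submodule.span ℂ (Set.range fun j => ι fun x => x j) ^ s :
        Submodule ℂ L') ≠ 0 := by
    intro n a U ι I i h1 h2 h3 s
    have h4 : (ι fun x => x i) = 1 := by
      rw [← sub_eq_zero, ← map_one ι, ← map_sub, h1]
      exact h2.mono fun x hx => sub_eq_zero.2 hx
    refine ⟨low (i := i) (I := I) h4 (algebraicIndependent_iff.2 fun p hp => by_contra fun h5 => ?_) s,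
      fun h5 => ?_⟩
    · obtain ⟨x, e1, e2⟩ := (((h1 _).1 ((AlgHom.congr_fun (comp_aeval
        (fun t (x : Fin (n + 1) → ℂ) => x (I t)) ι) p).trans hp)).and
        (h3 p h5)).exists
      exact e2 ((AlgHom.congr_fun (comp_aeval (fun t (x : Fin (n + 1) → ℂ) => x (I t))
        (Pi.evalAlgHom ℂ (fun _ => ℂ) x)) p).symm.trans e1)
    · have := fin_pow (fun j => ι fun x => x j) s
      have h6 := Submodule.pow_mem_pow _ (Submodule.subset_span (R := ℂ) (show 1 ∈ Set.range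
        fun j => ι fun x => x j from ⟨i, h4⟩)) s
      rw [Submodule.finrank_eq_zero.1 h5, one_pow] at h6
      exact one_ne_zero h6
  have d1 := gen c1 (a1.mono fun _ h => h.2) a2
  have d2 := gen c2 (b1.mono fun _ h => h.2) b2
  let x := fun j => ι fun x => x j
  let y := fun j => ι' fun x => x j
  let P := Ideal.span {f | (∃ p, f ∈ Forms n m p) ∧ pt x y f = 0}
  have e1 : IsBihom P := by
    let := weightedGradedAlgebra ℂ (wt n m)
    exact isBihom_iff.2 (Ideal.homogeneous_span _ _ fun f hf => hf.1)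
  have e2 : ∀ s t, hf P (s, t) = finrank ℂ (Submodule.span ℂ (Set.range x) ^ s : Submodule ℂ L') *
      finrank ℂ (Submodule.span ℂ (Set.range y) ^ t : Submodule ℂ L') := fun s t => by
    have := fin_pow x s
    have := fin_pow y t
    have sub : ∀ {n : ℕ} (R : Subalgebra ℂ L') (x : Fin (n + 1) → L'), (∀ i, x i ∈ R) → ∀ s,
        Submodule.span ℂ (Set.range x) ^ s ≤ R.toSubmodule := fun R x h s => by
      induction s with
      | zero => exact Submodule.one_le.2 R.one_mem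
      | succ s ih =>
        rw [pow_succ, Submodule.mul_le]
        exact fun u hu v hv => R.mul_mem (ih hu)
          ((Submodule.span_le (p := R.toSubmodule)).2 (Set.range_subset_iff.2 h) hv)
    rw [stHV.eq (P := P) x y _ fun f hf => ⟨fun h => (Ideal.span_le (I := RingHom.ker (pt x y))).2
      (fun _ h => h.2) h, fun h => Ideal.subset_span ⟨⟨_, hf⟩, h⟩⟩, stHV.pow]
    exact ld hπ' _ _ (fun z hz => (sub ι.range x (fun i => ⟨_, rfl⟩) s hz).elim fun w hw => ⟨_, hw⟩)
      fun z hz => sub ι'.range y (fun i => ⟨_, rfl⟩) t hz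
  have e3 : F ∈ P := by
    refine Ideal.subset_span ⟨⟨p, hF⟩, ?_⟩
    have := pt_map (π'.restrictScalars ℂ) (fun j _ => π fun x => x j)
      (fun j l => algebraMap ℂ L (l j)) F
    refine Eq.trans (congrArg (pt · y F) (funext fun j => (π'.commutes _).symm)) (this.trans
      ((hπ' _).2 (b1.mono fun l hl => ?_)))
    refine (pt_map (Pi.evalAlgHom ℂ (fun _ => L) l) _ _ F).symm.trans ?_
    have := pt_map π (fun j x => x j) (fun j _ => l j) F
    refine Eq.trans (congrArg (pt _ · F) (funext fun j => (π.commutes _).symm)) (this.trans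
      ((hπ _).2 (a1.mono fun z hz => ?_)))
    exact (pt_map (Pi.evalAlgHom ℂ (fun _ => ℂ) z) _ _ F).symm.trans (h0 z hz.1 l hl.1)
  obtain ⟨q, hq⟩ := stHEX.ex e1
  obtain ⟨N, hN⟩ := eventually_atTop.1 hq
  obtain ⟨φ, f1, f2⟩ := ex_poly (q := q) (u := ![Polynomial.X, Polynomial.C (N.2 : ℝ)])
    (Nat.cast_ne_zero.2 (d2 N.2).2) ((eventually_ge_atTop N.1).mono fun s hs => by
      rw [← Nat.cast_mul, ← e2, hN (s, N.2) ⟨hs, le_rfl⟩]
      exact congrArg (eval · q) (funext fun i => by fin_cases i <;> simp)) fun s => (d1 s).1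
  obtain ⟨ψ, g1, g2⟩ := ex_poly (q := q) (u := ![Polynomial.C (N.1 : ℝ), Polynomial.X])
    (Nat.cast_ne_zero.2 (d1 N.1).2) ((eventually_ge_atTop N.2).mono fun s hs => by
      rw [← Nat.cast_mul, mul_comm, ← e2, hN (N.1, s) ⟨le_rfl, hs⟩]
      exact congrArg (eval · q) (funext fun i => by fin_cases i <;> simp)) fun s => (d2 s).1
  have e4 := stDEC _ _ _ _ _ e1 (cl_prod (I := P) (φ := φ) (ψ := ψ) (by
    rw [← prod_atTop_atTop_eq]
    exact (f2.prod_mk g2).mono fun p hp => by rw [← hp.1, ← hp.2, ← Nat.cast_mul, ← e2]))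
  generalize ht : ((φ.natDegree.factorial * ψ.natDegree.factorial : ℕ) : ℝ) *
    (φ.leadingCoeff * ψ.leadingCoeff) = t at e4
  have e5 : t ≠ 0 := ht ▸ mul_ne_zero (by positivity) (mul_ne_zero
    (Polynomial.leadingCoeff_ne_zero.2 fun e => by simp [e] at f1)
    (Polynomial.leadingCoeff_ne_zero.2 fun e => by simp [e] at g1))
  obtain ⟨r, hr⟩ := exists_add_of_le f1
  obtain ⟨r', hr'⟩ := exists_add_of_le g1
  rw [hr, hr'] at e4
  obtain ⟨J, j1, -, j2⟩ := cuts (fun _ : ℕ => (0 : S n m)) (u := 1) (v := 0) (fun _ => zero_mem _)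
    (Finset.range r) (k := a + b + 2 + r') (by
      rwa [Finset.card_range, show a + b + 2 + r' + r = a + 1 + r + (b + 1 + r') by ring])
  obtain ⟨J', j3, -, j4⟩ := cuts (fun _ : ℕ => (0 : S n m)) (u := 0) (v := 1) (fun _ => zero_mem _)
    (Finset.range r') (k := a + b + 2) (by rwa [Finset.card_range])
  refine ⟨t, lt_of_le_of_ne (by simpa using stCONE.pos e4 (a + 1 + r, b + 1 + r')) e5.symm,
    cn_anti ((Ideal.span_singleton_le_iff_mem _).2 (j3 (j1 e3)))
      ((congrArg (· ∈ Cn J' (a + b + 2)) (funext fun p => ?_)).mp j4)⟩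
  rw [sh_y, sh_x, Pi.single_apply, Pi.single_apply, Nat.cast_one, one_pow, one_mul]
  simp [Prod.ext_iff]

end Pool.Agent.Lib.LI11
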