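import Pool.Agent.Lib.LI11.J

/-! Pseudoeffective product classes are effective. -/

open MvPolynomial Module Filter Pool.Agent.Lib.MP_08f962_ag Pool.Agent.Lib.CLF

noncomputable section

namespace Pool.Agent.Lib.LI11

variable {n m d e : ℕ} {F : S n m}

theorem grid_or (hF : F ∈ Forms n m (d, e)) (hn : 1 ≤ n) (hm : 1 ≤ m) (hd : 1 ≤ d) (he : 1 ≤ e) :
    (∃ K : ℝ, ∀ (P : Ideal (S n m)) c, P.IsPrime → IsBihom P → F ∈ P → Cl P 2 c →
      1 * c (1, 1) ≤ K * c (2, 0) + K * c (0, 2)) ∨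
    ∃ (L : Type) (_ : Field L) (_ : Algebra ℂ L) (x : (ℕ → Bool) → Fin (n + 1) → L)
      (y : (ℕ → Bool) → Fin (m + 1) → L), PD' x ∧ PD' y ∧ ∀ k l, pt (x k) (y l) F = 0 := by
  by_cases h : ∃ N, N ≠ 0 ∧ NG1 (F ^ N) (N * d) (N * e)
  · obtain ⟨N, h3, hN⟩ := h
    have h1 : F ^ N ∈ Forms n m (N * d, N * e) := by simpa using pow_mem_forms hF N
    obtain ⟨K, -, hK⟩ := stSURF n m _ _ _ hn hm h1 hN
    have gr : ∀ n, IsGr (n := n) 1 X := fun n =>
      ⟨isHomogeneous_X ℂ, fun L _ _ k ξ _ => ⟨1, one_ne_zero, fun i => by simp⟩⟩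
    have h2 : (pull X X : S n m →ₐ[ℂ] S n m) = AlgHom.id ℂ _ := by
      ext (i | i) : 1 <;> simp [pull]
    refine Or.inl ⟨K, fun P c p1 p2 p3 p4 => ?_⟩
    simpa using hK 1 1 X X P c le_rfl le_rfl (gr n) (gr m) p1 p2 (by
      rw [h2]
      exact P.pow_mem_of_mem p3 N (Nat.pos_of_ne_zero h3)) p4
  push Not at h
  have h1 : ∀ j : ℕ, ∃ (x : (Fin j → Bool) → Fin (n + 1) → ℂ) (y : (Fin j → Bool) → Fin (m + 1) → ℂ),
      PD' x ∧ PD' y ∧ ∀ k l, pt (x k) (y l) F = 0 := fun j => by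
    have := h (2 ^ j) (by positivity)
    simp only [NG1, not_forall, not_exists, not_not] at this
    obtain ⟨x, y, hx, hy, h0⟩ := this
    have h2 : ∀ u, 1 ≤ u → Nonempty ((Fin j → Bool) ↪ Fin (2 ^ j * u + 1)) := fun u hu =>
      Function.Embedding.nonempty_of_card_le (by
        simpa using (Nat.le_mul_of_pos_right _ hu).trans (Nat.le_succ _))
    obtain ⟨σ⟩ := h2 d hd
    obtain ⟨τ⟩ := h2 e he
    exact ⟨fun k => x (σ k), fun l => y (τ l),
      pd_pd' ⟨fun k => hx.1 _, fun k l c e => σ.injective (hx.2 _ _ c e)⟩,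
      pd_pd' ⟨fun k => hy.1 _, fun k l c e => τ.injective (hy.2 _ _ c e)⟩,
      fun k l => eq_zero_of_pow_eq_zero ((map_pow _ _ _).symm.trans (h0 _ _))⟩
  choose x y hx hy h0 using h1
  obtain ⟨L, _, _, _, π, hπ⟩ := ult ℂ ℕ (hyperfilter ℕ)
  refine Or.inr ⟨L, inferInstance, inferInstance, _, _, pd_ult hπ hx, pd_ult hπ hy, fun A B => ?_⟩
  rw [pt_map π, hπ]
  exact Eventually.of_forall fun j =>
    (pt_map (Pi.evalAlgHom ℂ (fun _ : ℕ => ℂ) j) _ _ F).symm.trans (h0 j _ _)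

theorem ex_forms (n m a : ℕ) (p : ℕ × ℕ) : ∃ h : Fin a → S n m, (∀ i, h i ∈ Forms n m p) ∧
    AlgebraicIndependent ℚ fun q : Fin a × Ix n m p => (h q.1).coeff q.2.1 := by
  classical
  have : Fintype (Ix n m p) := (finite_wt p).fintype
  obtain ⟨g, hg⟩ := ex_ind ℚ (Fin a × Ix n m p)
  refine ⟨fun i => ∑ α : Ix n m p, monomial α.1 (g (i, α)), fun i =>
    Submodule.sum_mem _ fun α _ => isWeightedHomogeneous_monomial _ _ _ α.2,
    (congrArg (fun v => AlgebraicIndependent ℚ v) (funext fun q => ?_)).mp hg⟩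
  simp only [coeff_sum, coeff_monomial, Subtype.val_inj, Finset.sum_ite_eq', Finset.mem_univ,
    if_true]

theorem ex_span {K J W : Type} [Field K] [Fintype W] (u : J → W → K) (s : Set J) :
    ∃ t : Finset J, (t : Set J) ⊆ s ∧ t.card ≤ Fintype.card W ∧
      ∀ j ∈ s, u j ∈ Submodule.span K (Set.range fun r : t => u r) := by
  obtain ⟨b, h1, -, h2, h3⟩ := exists_linearIndepOn_extension
    (linearIndepOn_empty K u) (Set.empty_subset s)
  lift b to Finset J using Set.finite_coe_iff.1 (LinearIndependent.finite h3)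
  refine ⟨b, h1, ?_, fun j hj => ?_⟩
  · simpa using LinearIndependent.fintype_card_le_finrank h3
  · have := h2 ⟨j, hj, rfl⟩
    rwa [Set.image_eq_range] at this

theorem bil_span (hF : F ∈ Forms n m (d, e)) {ρ ρ' : Type} {u : ρ → Fin (n + 1) → ℂ}
    {v : ρ' → Fin (m + 1) → ℂ} (h : ∀ r s, pt (u r) (v s) F = 0) {x : Fin (n + 1) → ℂ}
    {y : Fin (m + 1) → ℂ} (hx : vr d x ∈ Submodule.span ℂ (Set.range fun r => vr d (u r)))
    (hy : vr e y ∈ Submodule.span ℂ (Set.range fun r => vr e (v r))) : pt x y F = 0 := by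
  have h1 : ∀ (x : Fin (n + 1) → ℂ) (y : Fin (m + 1) → ℂ), pt x y F =
      ∑ α, ∑ μ, F.coeff (α.1.sumElim μ.1) * (vr d x α * vr e y μ) := fun x y => by
    conv_lhs => rw [eq_sum_cy hF, map_sum, ← Finset.sum_coe_sort]
    refine Finset.sum_congr rfl fun α _ => ?_
    rw [map_mul, cy, map_sum, ← Finset.sum_coe_sort, Finset.mul_sum]
    refine Finset.sum_congr rfl fun μ _ => ?_
    simp [pt_mono, vr, mul_left_comm]
  simp only [h1] at h ⊢
  generalize vr d x = x at hx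
  generalize vr e y = y at hy
  induction hx using Submodule.span_induction with
  | zero => simp
  | add _ _ _ _ a b => simp only [Pi.add_apply, add_mul, mul_add, Finset.sum_add_distrib, a, b,
      add_zero]
  | smul c _ _ a => simp only [Pi.smul_apply, smul_eq_mul, mul_assoc, mul_left_comm _ c,
      ← Finset.mul_sum, a, mul_zero]
  | mem x hx =>
    obtain ⟨r, rfl⟩ := hx
    induction hy using Submodule.span_induction with
    | zero => simp
    | add _ _ _ _ a b => simp only [Pi.add_apply, mul_add, Finset.sum_add_distrib, a, b, add_zero]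
    | smul c _ _ a => simp only [Pi.smul_apply, smul_eq_mul, mul_left_comm _ c,
        ← Finset.mul_sum, a, mul_zero]
    | mem y hy =>
      obtain ⟨s, rfl⟩ := hy
      exact h r s

theorem sh_x' {c : ℕ × ℕ → ℝ} (r : ℕ) (p : ℕ × ℕ) :
    (sh e (0 : ℕ))^[r] c p = (e : ℝ) ^ r * c (p.1 + r, p.2) := by
  induction r generalizing p with
  | zero => simp
  | succ r ih =>
    rw [Function.iterate_succ_apply', sh, ih, ih, add_assoc, add_comm 1 r]
    simp only [Nat.cast_zero]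
    ring

theorem ex_prime {J : Ideal (S n m)} {k : ℕ} {c : ℕ × ℕ → ℝ} (h : c ∈ Cn J k) {p : ℕ × ℕ}
    (hp : c p ≠ 0) : ∃ (P : Ideal (S n m)) (c' : ℕ × ℕ → ℝ), P.IsPrime ∧ IsBihom P ∧ J ≤ P ∧
      Cl P k c' ∧ c' p ≠ 0 ∧ ∀ q, 0 ≤ c' q ∧ c' q ≤ c q := by
  induction h using AddSubmonoid.closure_induction with
  | zero => exact absurd rfl hp
  | mem c hc =>
    obtain ⟨P, a1, a2, a3, a4⟩ := hc
    exact ⟨P, c, a1, a2, a3, a4, hp, fun q => ⟨stCONE.pos (stDEC _ _ _ _ _ a2 a4) q, le_rfl⟩⟩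
  | add x y hx hy a b =>
    by_cases h : x p = 0
    · obtain ⟨P, c, a1, a2, a3, a4, a5, a6⟩ := b fun e => hp (by simp [h, e])
      exact ⟨P, c, a1, a2, a3, a4, a5, fun q =>
        ⟨(a6 q).1, (a6 q).2.trans (le_add_of_nonneg_left (stCONE.pos hx q))⟩⟩
    · obtain ⟨P, c, a1, a2, a3, a4, a5, a6⟩ := a h
      exact ⟨P, c, a1, a2, a3, a4, a5, fun q =>
        ⟨(a6 q).1, (a6 q).2.trans (le_add_of_nonneg_right (stCONE.pos hy q))⟩⟩

theorem ex_class {a b k : ℕ} (hk : a + b = k) {t : ℝ} (ht : 0 < t)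
    (h : Pi.single (a, b) t ∈ Cn (Ideal.span {F}) k) : ∃ (P : Ideal (S n m)) (t : ℝ), 0 < t ∧
      P.IsPrime ∧ IsBihom P ∧ F ∈ P ∧ IsClass P k (Pi.single (a, b) t) := by
  obtain ⟨P, c, a1, a2, a3, ⟨q, q1, q2, q3⟩, a5, a6⟩ := ex_prime h (p := (a, b)) (by simpa using ht.ne')
  have h1 : Pi.single (a, b) (c (a, b)) = c := funext fun p => by
    by_cases e : p = (a, b)
    · rw [e, Pi.single_eq_same]
    · rw [Pi.single_eq_of_ne e]
      exact (a6 p).1.antisymm ((a6 p).2.trans_eq (Pi.single_eq_of_ne e _))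
  refine ⟨P, c (a, b), (a6 _).1.lt_of_ne a5.symm, a1, a2, a3 (Ideal.mem_span_singleton_self F), q,
    q1.antisymm ?_, q2, h1.symm ▸ q3⟩
  rw [q3, if_pos hk] at a5
  have := le_totalDegree (mem_support_iff.2 (right_ne_zero_of_mul a5))
  rw [Finsupp.sum_fintype _ _ (by simp), Fin.sum_univ_two] at this
  simpa [hk] using this

end Pool.Agent.Lib.LI11
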