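import Pool.Agent.Lib.LI11.K

/-! The dichotomy. -/

open MvPolynomial Module Filter Pool.Agent.Lib.MP_08f962_ag Pool.Agent.Lib.CLF

noncomputable section

namespace Pool.Agent.Lib.LI11

variable {n m d e : ℕ} {F : S n m}

theorem pt_zero {L : Type} [Field L] [Algebra ℂ L] {f : S n m} (hf : f ∈ Forms n m (d, 0))
    (x : Fin (n + 1) → L) (y : Fin (m + 1) → L) : pt x 0 f = pt x y f := by
  simpa using NG.scale x y 1 0 hf

theorem dich (hF : F ∈ Forms n m (d, e)) (hn : 1 ≤ n) (hm : 1 ≤ m) (a b : ℕ) :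
    (∃ K : ℝ, ∀ c ∈ effCone F (a + b + 2),
      0 ≤ K * c (a + 2, b) + K * c (a, b + 2) - c (a + 1, b + 1)) ∨
    ∃ (W : Set (Fin (n + 1) → ℂ)) (W' : Set (Fin (m + 1) → ℂ)), Dn W (a + 1) ∧ Dn W' (b + 1) ∧
      ∀ x ∈ W, ∀ y ∈ W', pt x y F = 0 := by
  classical
  generalize hD : Fintype.card ↥(Finset.univ.finsuppAntidiag d : Finset (Fin (n + 1) →₀ ℕ)) * (n + 1) +
    Fintype.card ↥(Finset.univ.finsuppAntidiag e : Finset (Fin (m + 1) →₀ ℕ)) * (m + 1) +
      F.coeffs.card + 1 = D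
  obtain ⟨h, h1, h2⟩ := ex_forms n m a (D, 0)
  obtain ⟨h', h3, h4⟩ := ex_forms m n b (D, 0)
  obtain ⟨G, u, v, hu, hv, g1, g2, g3⟩ := one_form
    (Sum.elim (fun _ : Unit => F) (Sum.elim h fun j => sw (h' j)))
    (Sum.elim (fun _ => (d, e)) (Sum.elim (fun _ => (D, 0)) fun _ => (0, D))) (by
      rintro (i | i | i)
      exacts [hF, h1 i, stSW.form (h3 i)])
  rcases grid_or g1 hn hm (by omega) (by omega) with ⟨K, hK⟩ | ⟨L, _, _, x, y, hx, hy, h0⟩
  · refine Or.inl ⟨K, eff_le ⟨fun _ _ => by simp only [Pi.add_apply]; ring,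
      fun _ _ => by simp only [Pi.smul_apply, smul_eq_mul]; ring⟩ (by fun_prop)
      fun P c p1 p2 p3 p4 => ?_⟩
    obtain ⟨J, j1, j2, j3⟩ := cuts h h1 Finset.univ (k := b + 2) (c := c) (J := P) (by
      rw [Finset.card_univ, Fintype.card_fin, show b + 2 + a = a + b + 2 by ring]
      exact stDEC _ _ _ _ _ p2 p4)
    obtain ⟨J', j4, j5, j6⟩ := cuts _ (fun j => stSW.form (h3 j)) Finset.univ (k := 2) (by
      rwa [Finset.card_univ, Fintype.card_fin, add_comm])
    have j7 : G ∈ J' := Ideal.span_le.2 (by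
      rintro _ ⟨i | i | i, rfl⟩
      exacts [j4 (j1 p3), j4 (j2 i (Finset.mem_univ i)), j5 i (Finset.mem_univ i)]) g2
    have := stCONE.surf (fun Q c q1 q2 q3 q4 => hK Q c q1 q2 (q3 j7) q4) 2 _ j6 0 0
    simp only [sh_y, sh_x', Finset.card_univ, Fintype.card_fin, zero_add, add_comm 1, add_comm 2]
      at this
    have D0 : (0 : ℝ) < D ^ b * D ^ a := by
      have : (0 : ℝ) < D := Nat.cast_pos.2 (by omega)
      positivity
    refine nonneg_of_mul_nonneg_right ?_ D0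
    linarith
  right
  have : CharZero L := charZero_of_injective_algebraMap (algebraMap ℂ L).injective
  have : Uncountable (ℕ → Bool) := Cardinal.aleph0_lt_mk_iff.1 (by
    simpa using Cardinal.aleph0_lt_continuum)
  obtain ⟨i0, i1, U, a1, a2⟩ := ex_filter hx
  obtain ⟨i0', i1', U', b1, b2⟩ := ex_filter hy
  have H : ∀ i, ∀ᶠ k in U, ∀ᶠ l in U', pt (x k) (y l)
      (Sum.elim (fun _ : Unit => F) (Sum.elim h fun j => sw (h' j)) i) = 0 := fun i => by
    by_contra hc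
    obtain ⟨j, c1, c2⟩ := pick a2 (Ultrafilter.eventually_not.2 hc) (n + m + 1)
    obtain ⟨j', c3, c4⟩ := pick b2 (eventually_all.2 fun k => Ultrafilter.eventually_not.2 (c2 k))
      (n + m + 1)
    obtain ⟨k, l, c5⟩ := g3 L _ _ i (pd'_pd hx c1) (pd'_pd hy c3) fun _ _ => h0 _ _
    exact c4 l k c5
  have a3 : ∀ᶠ k in U, ∀ i, pt (x k) 0 (h i) = 0 := eventually_all.2 fun i =>
    (H (.inr (.inl i))).mono fun k hk => hk.exists.elim fun l hl => (pt_zero (h1 i) _ _).trans hl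
  have b3 : ∀ᶠ l in U', ∀ i, pt (y l) 0 (h' i) = 0 := eventually_all.2 fun i =>
    (H (.inr (.inr i))).exists.elim fun k hk => hk.mono fun l hl =>
      (pt_zero (h3 i) _ _).trans ((stSW.pt (h' i) (y l) (x k)).symm.trans hl)
  obtain ⟨t, t1, t2, t3⟩ := ex_span (fun k => vr d ((x k i0)⁻¹ • x k))
    {k | ∀ᶠ l in U', pt (x k) (y l) F = 0}
  obtain ⟨t', s1, s2, s3⟩ := ex_span (fun l => vr e ((y l i0')⁻¹ • y l))
    {l | ∀ k ∈ t, pt (x k) (y l) F = 0}
  let k₀ := IntermediateField.adjoin ℚ (F.coeffs : Set ℂ)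
  have : Countable k₀ := ctble_adjoin (Finset.finite_toSet _)
  let T := (t ×ˢ Finset.univ).image (fun p => ((x p.1 i0)⁻¹ • x p.1) p.2) ∪
    (t' ×ˢ Finset.univ).image fun p => ((y p.1 i0')⁻¹ • y p.1) p.2
  let E := IntermediateField.adjoin k₀ (T : Set L)
  have : Countable E := ctble_adjoin (Finset.finite_toSet _)
  have c1 : (T ∪ F.coeffs.image (algebraMap ℂ L)).card ≤ D := by
    refine (Finset.card_union_le _ _).trans ((add_le_add ((Finset.card_union_le _ _).trans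
      (add_le_add Finset.card_image_le Finset.card_image_le)) Finset.card_image_le).trans ?_)
    have := Nat.mul_le_mul_right (n + 1) t2
    have := Nat.mul_le_mul_right (m + 1) s2
    simp only [Finset.card_product, Finset.card_univ, Fintype.card_fin]
    omega
  have c2 : ∀ c : E, algebraMap E L c ∈
      acl ℚ ((T ∪ F.coeffs.image (algebraMap ℂ L) : Finset L) : Set L) := fun c =>
    IntermediateField.adjoin_le_subfield k₀ (T : Set L) (by
      rintro _ ⟨z, rfl⟩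
      exact IntermediateField.adjoin_le_subfield ℚ (F.coeffs : Set ℂ)
        (K := (acl ℚ _).comap (algebraMap ℂ L)) (by
          rintro _ ⟨q, rfl⟩
          simp) (fun w hw => sub_acl (Finset.mem_union_right _ (Finset.mem_image_of_mem _ hw))) z.2)
      (fun w hw => sub_acl (Finset.mem_union_left _ hw)) c.2
  obtain ⟨σ, -⟩ := ext2 (k := k₀) (L := E) (z := Fin.elim0)
    (algebraicIndependent_empty_type_iff.2 (algebraMap k₀ E).injective) ∅
  let _ : Algebra E ℂ := σ.toRingHom.toAlgebra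
  obtain ⟨j, e1, e2, I, e3⟩ := wide hx a1 a2 h1 h2 a3 _ c1 c2 (H (.inl ()))
  obtain ⟨j', f1, f2, I', f3⟩ := wide hy b1 b2 h3 h4 b3 _ c1 c2
    (s := {l | ∀ k ∈ t, pt (x k) (y l) F = 0}) ((eventually_all_finset t).2 fun k hk => t1 hk)
  let x' : t → Fin (n + 1) → E := fun r i => ⟨((x r i0)⁻¹ • x r) i, IntermediateField.subset_adjoin
    _ _ (Finset.mem_union_left _ (Finset.mem_image.2 ⟨(r, i), by simp, rfl⟩))⟩
  let y' : t' → Fin (m + 1) → E := fun r i => ⟨((y r i0')⁻¹ • y r) i, IntermediateField.subset_adjoin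
    _ _ (Finset.mem_union_right _ (Finset.mem_image.2 ⟨(r, i), by simp, rfl⟩))⟩
  refine ⟨_, _, dense x' (inv_mul_cancel₀ e2) e3 (t3 j e1), dense y' (inv_mul_cancel₀ f2) f3 (s3 j' f1),
    fun _ hx _ hy => bil_span hF (fun r s => ?_) hx hy⟩
  obtain ⟨F', hF'⟩ := (mem_range_map_iff_coeffs_subset (f := algebraMap k₀ ℂ) (x := F)).2
    fun w hw => ⟨⟨w, IntermediateField.subset_adjoin _ _ hw⟩, rfl⟩
  have c3 : aeval (Sum.elim (x' r) (y' s)) F' = 0 := by
    have := NG.scale (x r) (y s) (x r i0)⁻¹ (y s i0')⁻¹ hF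
    rw [s1 s.2 r r.2, mul_zero, ← hF', pt, aeval_map_algebraMap] at this
    refine E.val.injective (((AlgHom.congr_fun (comp_aeval _ E.val) F').trans ?_).trans
      (map_zero _).symm)
    exact (congrArg (aeval · F') (funext (by rintro (i | i) <;> rfl))).trans this
  rw [← hF', pt, aeval_map_algebraMap]
  refine Eq.trans ?_ ((congrArg σ c3).trans (map_zero σ))
  exact (congrArg (aeval · F') (funext (by rintro (i | i) <;> rfl))).trans
    (AlgHom.congr_fun (comp_aeval (Sum.elim (x' r) (y' s)) σ) F').symm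

theorem ray_prod (hF : F ∈ Forms n m (d, e)) (a b : ℕ) :
    (∃ c ∈ effCone F (a + b + 2), c (a + 1, b + 1) ≠ 0 ∧ c (a + 2, b) = 0 ∧ c (a, b + 2) = 0) ↔
      ∃ (P : Ideal (S n m)) (t : ℝ), 0 < t ∧ P.IsPrime ∧ IsBihom P ∧ F ∈ P ∧
        IsClass P (a + b + 2) (Pi.single (a + 1, b + 1) t) := by
  refine ⟨fun ⟨c, h1, h2, h3, h4⟩ => ?_, fun ⟨P, t, h1, h2⟩ =>
    ⟨_, subset_closure (Submodule.subset_span ⟨P, h2⟩), by simpa using h1.ne', by simp, by simp⟩⟩
  obtain ⟨h5, h6⟩ := eff_sub h1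
  have h7 := h6 _ _ h2
  rcases dich hF (by omega) (by omega) a b with ⟨K, hK⟩ | ⟨W, W', a1, a2, a3⟩
  · have := hK c h1
    rw [h3, h4] at this
    exact absurd ((h5 _).antisymm (by linarith)).symm h2
  · obtain ⟨t, t0, ht⟩ := prod_class hF a1 a2 a3
    exact ex_class (by ring) t0 ht

end Pool.Agent.Lib.LI11
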