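import Pool.Agent.Lib.LI11.L

/-! Counting parameters for products. -/

open MvPolynomial Module Filter Pool.Agent.Lib.MP_08f962_ag Pool.Agent.Lib.CLF

noncomputable section

namespace Pool.Agent.Lib.LI11

variable {n m d e : ℕ} {F : S n m}

theorem Dn.points {W : Set (Fin (n + 1) → ℂ)} {a : ℕ} (h : Dn W a) (d : ℕ) :
    ∃ I : Fin (a + 1) → Fin (n + 1), ∀ (ι : Type) [Fintype ι] (g : ι → ℂ),
      AlgebraicIndependent ℚ g → ∀ r ≤ (a + d).choose d, ∃ x : Fin r → Fin (n + 1) → ℂ,
        (∀ k, x k ∈ W ∧ x k (I 0) = 1) ∧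
        AlgebraicIndependent ℚ (Sum.elim g fun q : Fin r × Fin a => x q.1 (I q.2.succ)) ∧
        LinearIndependent ℂ fun k => vr d fun t => x k (I t) := by
  classical
  obtain ⟨i, I, h⟩ := h
  refine ⟨Fin.cons i I, fun ι _ g hg r => ?_⟩
  induction r with
  | zero =>
    refine fun _ => ⟨Fin.elim0, fun k => k.elim0, ?_, linearIndependent_empty_type⟩
    have := hg.comp (Sum.elim id fun q => q.1.elim0 : ι ⊕ Fin 0 × Fin a → ι) (by
      rintro (i | i) (j | j)
      exacts [by simp, j.1.elim0, i.1.elim0, i.1.elim0])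
    refine (congrArg (fun v => AlgebraicIndependent ℚ v) (funext ?_)).mp this
    rintro (i | i)
    exacts [rfl, i.1.elim0]
  | succ r ih =>
    intro hr
    obtain ⟨x, x1, x2, x3⟩ := ih (by omega)
    obtain ⟨f, f0, f1⟩ := (Submodule.span ℂ (Set.range fun k => vr d fun t =>
      x k ((Fin.cons i I : Fin (a + 1) → _) t))).exists_le_ker_of_lt_top (lt_top_iff_ne_top.2 fun e => by
        have := finrank_span_eq_card x3
        rw [e, finrank_top, finrank_fintype_fun_eq_card, Fintype.card_coe,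
          Finset.card_finsuppAntidiag_nat_eq_choose, Finset.card_univ, Fintype.card_fin,
          Fintype.card_fin, show a + 1 + d - 1 = a + d by omega] at this
        omega)
    let p : MvPolynomial (Fin a) ℂ := ∑ α : ↥(Finset.univ.finsuppAntidiag d :
      Finset (Fin (a + 1) →₀ ℕ)), monomial α.1.tail (f fun β => if α = β then 1 else 0)
    have p0 : p ≠ 0 := fun e => f0 (LinearMap.ext fun v => by
      rw [f.pi_apply_eq_sum_univ]
      refine Finset.sum_eq_zero fun α _ => ?_
      have := congrArg (coeff α.1.tail) e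
      simp only [p, coeff_sum, coeff_monomial, coeff_zero] at this
      rw [Finset.sum_eq_single α (fun β _ hβ => if_neg fun e => hβ (Subtype.ext ?_)) (by simp),
        if_pos rfl] at this
      · rw [this, smul_zero]
      have a1 : ∑ i, α.1 i = d := (Finset.mem_finsuppAntidiag.1 α.2).1
      have a2 : ∑ i, β.1 i = d := (Finset.mem_finsuppAntidiag.1 β.2).1
      have a3 : ∀ t : Fin a, β.1 t.succ = α.1 t.succ := fun t => DFunLike.congr_fun e t
      simp only [Fin.sum_univ_succ, a3] at a1 a2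
      exact Finsupp.ext (Fin.cases (by omega) a3))
    obtain ⟨w, w1, w2, w3⟩ := h (p.coeffs ∪ Finset.univ.image (Sum.elim g fun q : Fin r × Fin a =>
      x q.1 ((Fin.cons i I : Fin (a + 1) → _) q.2.succ)))
    have w4 := (x2.sumElim_of_tower (by
      rintro _ ⟨j, rfl⟩
      exact ⟨⟨_, IntermediateField.subset_adjoin _ _ (Finset.mem_union_right _
        (Finset.mem_image_of_mem _ (Finset.mem_univ j)))⟩, rfl⟩) w3).comp
      (Sum.elim (fun j => .inr (.inl j)) fun q : Fin (r + 1) × Fin a => (Fin.cons (.inl q.2)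
        fun k => .inr (.inr (k, q.2)) : Fin (r + 1) → Fin a ⊕ ι ⊕ Fin r × Fin a) q.1) (by
        rintro (i | ⟨i, s⟩) (j | ⟨j, t⟩)
        · simp
        · refine Fin.cases ?_ (fun j => ?_) j <;> simp
        · refine Fin.cases ?_ (fun i => ?_) i <;> simp
        · refine Fin.cases ?_ (fun i => ?_) i <;> refine Fin.cases ?_ (fun j => ?_) j <;> simp)
    refine ⟨Fin.cons w x, Fin.cases ⟨w1, w2⟩ x1,
      (congrArg (fun v => AlgebraicIndependent ℚ v) (funext ?_)).mp w4,
      (congrArg (fun v => LinearIndependent ℂ v) (funext (Fin.cases rfl fun _ => rfl))).mp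
        ((linearIndependent_finCons (x := vr d fun t => w ((Fin.cons i I : Fin (a + 1) → _) t))).2
          ⟨x3, fun e => eval_ne p0 Finset.subset_union_left w3 ?_⟩)⟩
    · rintro (j | ⟨j, t⟩)
      · rfl
      · refine Fin.cases ?_ (fun j => ?_) j <;> rfl
    · rw [← LinearMap.mem_ker.1 (f1 e), f.pi_apply_eq_sum_univ, map_sum]
      refine Finset.sum_congr rfl fun α _ => ?_
      rw [eval_monomial, Finsupp.prod_fintype _ _ (by simp), smul_eq_mul, mul_comm]
      simp [vr, Fin.prod_univ_succ, w2, Finsupp.tail_apply]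

theorem count (hF : Gn F d e) {W : Set (Fin (n + 1) → ℂ)} {W' : Set (Fin (m + 1) → ℂ)} {a b : ℕ}
    (hW : Dn W a) (hW' : Dn W' b) (h0 : ∀ x ∈ W, ∀ y ∈ W', pt x y F = 0) :
    (a + d).choose d * (b + e).choose e + ((a + d).choose d * a + (b + e).choose e * b) ≤
      (a + d).choose d * n + (b + e).choose e * m := by
  classical
  have : Fintype (Ix n m (d, e)) := (finite_wt (d, e)).fintype
  obtain ⟨I, h1⟩ := hW.points d
  obtain ⟨I', h2⟩ := hW'.points e
  obtain ⟨x, a1, a2, a3⟩ := h1 _ _ hF.2 _ le_rfl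
  obtain ⟨y, b1, b2, b3⟩ := h2 _ _ a2 _ le_rfl
  have h3 : ∀ {n r : ℕ} (x : Fin r → Fin (n + 1) → ℂ) (i : Fin (n + 1)), (∀ k, x k i = 1) →
      ∃ T : Finset ℂ, T.card ≤ r * n ∧ ∀ k j, x k j ∈ Subfield.closure (T : Set ℂ) :=
    fun x i h => ⟨(Finset.univ ×ˢ Finset.univ.erase i).image fun p => x p.1 p.2,
      Finset.card_image_le.trans (by simp), fun k j => by
        by_cases e : j = i
        · rw [e, h]
          exact one_mem _
        · exact Subfield.subset_closure (Finset.mem_image.2 ⟨(k, j), by simp [e], rfl⟩)⟩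
  obtain ⟨T, a4, a5⟩ := h3 x _ fun k => (a1 k).2
  obtain ⟨T', b4, b5⟩ := h3 y _ fun k => (b1 k).2
  have key := trd ℂ (Ix n m (d, e)) _ (_ × _) (T ∪ T') _ (Sum.elim _ _)
    (fun k α => ∏ i, Sum.elim (x k.1) (y k.2) i ^ α.1 i)
    ((congrArg (fun v => AlgebraicIndependent ℚ v) (funext (by rintro (i | i | i) <;> rfl))).mp
      (b2.comp _ (Equiv.sumAssoc _ _ _).symm.injective))
    (by
      rintro (i | i)
      · exact Subfield.closure_mono (by simp) (a5 _ _)
      · exact Subfield.closure_mono (by simp) (b5 _ _))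
    (fun k α => prod_mem fun i _ => pow_mem (by
      rcases i with i | i
      · exact Subfield.closure_mono (by simp) (a5 _ i)
      · exact Subfield.closure_mono (by simp) (b5 _ i)) _) ?_ fun k => ?_
  · have := Finset.card_union_le T T'
    simp only [Fintype.card_prod, Fintype.card_sum, Fintype.card_fin] at key
    omega
  · rw [Fintype.linearIndependent_iff] at a3 b3 ⊢
    intro γ hc k
    refine b3 (fun l => γ (k.1, l)) (funext fun w' => ?_) k.2
    simp only [Finset.sum_apply, Pi.smul_apply, Pi.zero_apply]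
    refine a3 (fun k => ∑ l, γ (k, l) • vr e (fun t => y l (I' t)) w') (funext fun w => ?_) k.1
    have hH : IsWeightedHomogeneous (wt n m) ((∏ t, X (.inl (I t)) ^ w.1 t) *
        ∏ t, X (.inr (I' t)) ^ w'.1 t : MvPolynomial _ ℂ) (d, e) := by
      have := (IsWeightedHomogeneous.prod Finset.univ _ _ fun t _ => xpow_mem (m := m) (I t)
        (w.1 t)).mul (IsWeightedHomogeneous.prod Finset.univ _ _ fun t _ => ypow_mem (n := n) (I' t)
          (w'.1 t))
      rwa [show ∑ t, (w.1 t, 0) + ∑ t, (0, w'.1 t) = (d, e) from Prod.ext (by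
        simpa [Prod.fst_sum] using (Finset.mem_finsuppAntidiag.1 w.2).1) (by
        simpa [Prod.snd_sum] using (Finset.mem_finsuppAntidiag.1 w'.2).1)] at this
    have h6 := sum_eval (z := fun l : _ × _ => Sum.elim (x l.1) (y l.2)) (c := γ) (fun α => by
      simpa only [Finset.sum_apply, Pi.smul_apply, smul_eq_mul, Pi.zero_apply] using
        congrFun hc α) hH
    rw [Fintype.sum_prod_type] at h6
    simp only [map_mul, map_prod, map_pow, eval_X, Sum.elim_inl, Sum.elim_inr] at h6
    simp only [Finset.sum_apply, Pi.smul_apply, smul_eq_mul, Pi.zero_apply, Finset.sum_mul, vr]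
    rw [← h6]
    exact Finset.sum_congr rfl fun _ _ => Finset.sum_congr rfl fun _ _ => by ring
  · exact (pt_sum hF.1 _ _).symm.trans (h0 _ (a1 _).1 _ (b1 _).1)

theorem excl (hF : Gn F d e) {a b : ℕ} (ha : a + 1 ≤ n) (hb : b + 1 ≤ m)
    (h : (n - (a + 1)) * (a + 1 + d).choose d + (m - (b + 1)) * (b + 1 + e).choose e <
      (a + 1 + d).choose d * (b + 1 + e).choose e) : ∃ K : ℝ, ∀ c ∈ effCone F (a + b + 2),
      c (a + 1, b + 1) ≤ K * (c (a + 2, b) + c (a, b + 2)) := by
  rcases dich hF.1 (by omega) (by omega) a b with ⟨K, hK⟩ | ⟨W, W', a1, a2, a3⟩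
  · exact ⟨K, fun c hc => by linarith [hK c hc]⟩
  · have := count hF a1 a2 a3
    obtain ⟨n, rfl⟩ := exists_add_of_le ha
    obtain ⟨m, rfl⟩ := exists_add_of_le hb
    rw [add_tsub_cancel_left, add_tsub_cancel_left] at h
    nlinarith

end Pool.Agent.Lib.LI11
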