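import Pool.Agent.Lib.LI11.M

/-! Which product classes are pseudoeffective. -/

open MvPolynomial Module Filter Pool.Agent.Lib.MP_08f962_ag Pool.Agent.Lib.CLF
open scoped NNReal

noncomputable section

namespace Pool.Agent.Lib.LI11

variable {n m d e k : ℕ} {F : S n m}

theorem ray_mem {p : ℕ × ℕ} (h : ∃ t : ℝ, 0 < t ∧ Pi.single p t ∈ Cn (Ideal.span {F}) k) :
    Pi.single p 1 ∈ effCone F k := by
  obtain ⟨t, t0, ht⟩ := h
  have e1 : (Pi.single p 1 : ℕ × ℕ → ℝ) = (⟨t⁻¹, inv_nonneg.2 t0.le⟩ : ℝ≥0) • Pi.single p t := by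
    funext q
    change _ = t⁻¹ * _
    rw [Pi.single_apply, Pi.single_apply, mul_ite, mul_zero, inv_mul_cancel₀ t0.ne']
  rw [e1]
  exact subset_closure (Submodule.smul_mem _ _ (INN.cn_sub ht))

theorem single_sw {a b : ℕ} (h : Pi.single (a, b) 1 ∈ effCone F k) :
    Pi.single (b, a) 1 ∈ effCone (sw F) k := by
  refine (congrArg (· ∈ effCone _ k) (funext fun p => ?_)).mp (eff_sw h)
  simp only [Pi.single_apply, Prod.ext_iff, Prod.fst_swap, Prod.snd_swap, and_comm]

theorem ray_iff (n m d e : ℕ) (hn : 1 ≤ n) (hm : 1 ≤ m) (hd : 1 ≤ d) (he : 1 ≤ e) :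
    VeryGeneral (n := n) (m := m) (d, e) fun F => ∀ a α b β Δ : ℕ, a + α = n → b + β = m →
      Δ = ((a + d).choose d - β) * ((b + e).choose e - α) →
      Δ = 0 ∨ α * β < Δ ∨ (3 ≤ n ∧ 3 ≤ m ∧ m ≤ d + 1 ∧ n ≤ e + 1) →
      (Pi.single (a, b) 1 ∈ effCone F (a + b) ↔ Δ = 0) := by
  obtain ⟨T, h2, h3, h4⟩ := veryGeneral (n := n) (m := m) (d, e)
  refine ⟨T, h2, h3, fun F hF hT a α b β Δ ha hb hΔ hr => ⟨fun h => by_contra fun h0 => ?_,
    fun h => ?_⟩⟩
  · have g : Gn F d e := ⟨hF, h4 F hF hT⟩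
    obtain ⟨c1, c2⟩ := mul_ne_zero_iff.1 (hΔ ▸ h0)
    by_cases c3 : a = n
    · subst c3
      exact not_top g hn hd (b := b) (by omega) (by omega) h
    by_cases c4 : b = m
    · subst c4
      have := single_sw h
      rw [add_comm a b] at this
      exact not_top g.sw hm he (b := a) (by omega) (by omega) this
    rcases a with _ | a
    · simp at c1
      omega
    rcases b with _ | b
    · simp at c2
      omega
    rcases hr with hr | hr | ⟨a1, a2, a3, a4⟩
    · exact h0 hr
    · obtain ⟨u, hu⟩ := exists_add_of_le (show β ≤ (a + 1 + d).choose d by omega)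
      obtain ⟨v, hv⟩ := exists_add_of_le (show α ≤ (b + 1 + e).choose e by omega)
      obtain ⟨K, hK⟩ := excl g (a := a) (b := b) (by omega) (by omega) (by
        rw [hΔ, hu, hv, add_tsub_cancel_left, add_tsub_cancel_left] at hr
        rw [hu, hv, ← ha, ← hb, add_tsub_cancel_left, add_tsub_cancel_left]
        nlinarith)
      rw [show a + 1 + (b + 1) = a + b + 2 by ring] at h
      have := hK _ h
      norm_num [Pi.single_apply] at this
    · exact not_mid g a1 a2 a3 a4 a b h
  · rcases mul_eq_zero.1 (hΔ ▸ h) with h | h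
    · exact ray_mem (ray hF he (by omega) (by omega))
    · have := single_sw (ray_mem (ray (stSW.form hF) hd (a := b) (b := a) (by omega) (by omega)))
      rwa [SW.sw_sw, add_comm b a] at this

end Pool.Agent.Lib.LI11
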